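import Pool.Agent.K4H62.IT.Snoc
import Pool.Agent.K4H25.PC.Kod

/-!
General type from two traces whose ratio is not algebraic over the base.
-/

set_option autoImplicit false
set_option linter.unusedSectionVars false
set_option linter.overlappingInstances false
set_option maxHeartbeats 4000000
set_option synthInstance.maxHeartbeats 400000

open FF Module Pool.Agent Pool.Agent.W602.GT Pool.Agent.W603.LV
open Pool.Agent.R882.LT (SecAt trForm_sec)
open Pool.Agent.Y184.NT (trForm trForm_pluri)
open Pool.Agent.R882.LT (TraceNe secAt_of)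

namespace Pool.Agent.K4H62.IT

open Pool.Agent.K4H25.MG Pool.Agent.K4H25.PC

section

variable {L F : Type} [Field L] [Field F] [Algebra ℂ L] [Algebra ℂ F] [Algebra L F]
  [IsScalarTower ℂ L F] [FiniteDimensional L F] {N q : ℕ} {β : Fin N → Fin q} {M : Fin q → ℕ}
  {x : Fin N → F} {ι : Type} {G : ι → F}

/-- the degrees for one more coordinate -/
theorem deg_snoc (hgen : IntermediateField.adjoin L (Set.range x) = ⊤)
    (hk : ∀ Λ : Finset (Fin q), Λ.Nonempty →
      2 * finrank (IntermediateField.adjoin L (x '' {j | β j ∉ Λ})) F ≤ ∑ b ∈ Λ, M b + 1) (u : F)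
    (Λ : Finset (Fin (q + 1))) (hΛ : Λ.Nonempty) :
    2 * finrank (IntermediateField.adjoin L ((Fin.snoc (α := fun _ => F) x u : Fin (N + 1) → F) ''
      {j | (Fin.snoc (α := fun _ => Fin (q + 1)) (fun j => (β j).castSucc) (Fin.last q) :
        Fin (N + 1) → Fin (q + 1)) j ∉ Λ})) F ≤
      ∑ b ∈ Λ, (Fin.snoc (α := fun _ => ℕ) M 1 : Fin (q + 1) → ℕ) b + 1 := by
  classical
  obtain ⟨Λ0, hΛ0⟩ : ∃ Λ0 : Finset (Fin q), Λ0 = Finset.univ.filter fun b => b.castSucc ∈ Λ :=
    ⟨_, rfl⟩
  have hmem : ∀ b, b ∈ Λ0 ↔ b.castSucc ∈ Λ := fun b => by rw [hΛ0]; simp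
  have hle : IntermediateField.adjoin L (x '' {j | β j ∉ Λ0}) ≤
      IntermediateField.adjoin L ((Fin.snoc (α := fun _ => F) x u : Fin (N + 1) → F) ''
      {j | (Fin.snoc (α := fun _ => Fin (q + 1)) (fun j => (β j).castSucc) (Fin.last q) :
        Fin (N + 1) → Fin (q + 1)) j ∉ Λ}) := by
    apply IntermediateField.adjoin.mono
    rintro _ ⟨j, hj, rfl⟩
    refine ⟨j.castSucc, ?_, by rw [Fin.snoc_castSucc]⟩
    rw [Set.mem_setOf_eq, Fin.snoc_castSucc]
    exact fun h => hj ((hmem _).2 h)
  have hsum : ∑ b ∈ Λ0, M b ≤ ∑ b ∈ Λ, (Fin.snoc (α := fun _ => ℕ) M 1 : Fin (q + 1) → ℕ) b := by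
    have h1 : ∑ b ∈ Λ0, M b = ∑ b ∈ Λ0.map Fin.castSuccEmb,
        (Fin.snoc (α := fun _ => ℕ) M 1 : Fin (q + 1) → ℕ) b := by
      rw [Finset.sum_map]
      refine Finset.sum_congr rfl fun b _ => ?_
      rw [Fin.coe_castSuccEmb, Fin.snoc_castSucc]
    rw [h1]
    refine Finset.sum_le_sum_of_subset fun b hb => ?_
    obtain ⟨b', hb', rfl⟩ := Finset.mem_map.1 hb
    exact (hmem b').1 hb'
  by_cases h0 : Λ0.Nonempty
  · have h1 := hk Λ0 h0
    have h2 := IntermediateField.finrank_le_of_le_left hle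
    omega
  · rw [Finset.not_nonempty_iff_eq_empty] at h0
    have h1 : IntermediateField.adjoin L ((Fin.snoc (α := fun _ => F) x u : Fin (N + 1) → F) ''
      {j | (Fin.snoc (α := fun _ => Fin (q + 1)) (fun j => (β j).castSucc) (Fin.last q) :
        Fin (N + 1) → Fin (q + 1)) j ∉ Λ}) = ⊤ := by
      rw [eq_top_iff, ← hgen]
      refine le_trans ?_ hle
      apply IntermediateField.adjoin.mono
      rintro _ ⟨j, rfl⟩
      exact ⟨j, by rw [Set.mem_setOf_eq, h0]; exact Finset.notMem_empty _, rfl⟩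
    rw [h1, IntermediateField.finrank_top]
    obtain ⟨b, hb⟩ := hΛ
    have h2 : b = Fin.last q := by
      refine Fin.lastCases (fun _ => rfl) (fun b' hb' => ?_) b hb
      have h3 := (hmem b').2 hb'
      rw [h0] at h3
      exact absurd h3 (Finset.notMem_empty _)
    have h3 := Finset.single_le_sum (f := (Fin.snoc (α := fun _ => ℕ) M 1 : Fin (q + 1) → ℕ))
      (fun _ _ => Nat.zero_le _) hb
    rw [h2, Fin.snoc_last] at h3
    omega

/-- **Ratios of traces, with one more coordinate.** -/
theorem ratios_snoc (hG : SepSys β M x G) {n d : ℕ} (hL : Algebra.trdeg ℂ L = (d + 1 : ℕ))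
    (hgen : IntermediateField.adjoin L (Set.range x) = ⊤)
    (hd : Algebra.trdeg ℂ (IntermediateField.adjoin ℂ (Set.range x)) = (d : ℕ))
    (hk : ∀ Λ : Finset (Fin q), Λ.Nonempty →
      2 * finrank (IntermediateField.adjoin L (x '' {j | β j ∉ Λ})) F ≤ ∑ b ∈ Λ, M b + 1)
    {u : F} (hu : ¬ IsAlgebraic (IntermediateField.adjoin ℂ (Set.range x)) u)
    {h : F} (hh : h ≠ 0) {T : ι × Fin 2 → L}
    (hT : ∀ a, T a = Algebra.trace L F (G a.1 * u ^ (a.2 : ℕ) * h)) :
    ∃ s : Fin ((d + 1) + 1) → ι × Fin 2, T (s 0) ≠ 0 ∧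
      AlgebraicIndependent ℂ (fun i : Fin (d + 1) => T (s i.succ) / T (s 0)) := by
  classical
  have hG' := sepSys_snoc hG u
  have hrange : Set.range (Fin.snoc (α := fun _ => F) x u : Fin (N + 1) → F) =
      insert u (Set.range x) := by
    ext z
    constructor
    · rintro ⟨j, rfl⟩
      refine Fin.lastCases ?_ (fun j => ?_) j
      · rw [Fin.snoc_last]
        exact Set.mem_insert _ _
      · rw [Fin.snoc_castSucc]
        exact Set.mem_insert_of_mem _ ⟨j, rfl⟩
    · rintro (rfl | ⟨j, rfl⟩)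
      · exact ⟨Fin.last N, by rw [Fin.snoc_last]⟩
      · exact ⟨j.castSucc, by rw [Fin.snoc_castSucc]⟩
  have hgen' : IntermediateField.adjoin L
      (Set.range (Fin.snoc (α := fun _ => F) x u : Fin (N + 1) → F)) = ⊤ := by
    rw [eq_top_iff, ← hgen, hrange]
    exact IntermediateField.adjoin.mono _ _ _ (Set.subset_insert _ _)
  have hF : Algebra.trdeg ℂ F = (d + 1 : ℕ) := by
    rw [← trdeg_add_eq ℂ L (A := F), trdeg_eq_zero (R := L) (A := F), add_zero, hL]
  have hd' : Algebra.trdeg ℂ (IntermediateField.adjoin ℂ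
      (Set.range (Fin.snoc (α := fun _ => F) x u : Fin (N + 1) → F))) = ((d + 1 : ℕ) : Cardinal) := by
    rw [hrange]
    apply le_antisymm
    · rw [← hF]
      exact trdeg_le_of_injective (IntermediateField.adjoin ℂ (insert u (Set.range x))).val
        (Subtype.val_injective)
    · obtain ⟨b, hb⟩ := Pool.Agent.W636.PG.exists_basis ℂ
        (IntermediateField.adjoin ℂ (Set.range x)) d hd
      have h1 : AlgebraicIndependent ℂ (fun i : Option (Fin d) => (i.elim u fun j => (b j : F))) := by
        have h2 : AlgebraicIndependent ℂ fun j => (b j : F) :=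
          hb.1.map' (f := (IntermediateField.adjoin ℂ (Set.range x)).val) Subtype.val_injective
        refine (h2.option_iff_transcendental u).2 ?_
        intro h3
        apply hu
        have h4 : Algebra.adjoin ℂ (Set.range fun j => (b j : F)) ≤
            (IntermediateField.adjoin ℂ (Set.range x)).toSubalgebra := by
          rw [Algebra.adjoin_le_iff]
          rintro _ ⟨j, rfl⟩
          exact (b j).2
        obtain ⟨p, hp0, hp⟩ := h3
        refine ⟨p.map (Subalgebra.inclusion h4).toRingHom, ?_, ?_⟩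
        · exact (Polynomial.map_ne_zero_iff (Subalgebra.inclusion_injective h4)).2 hp0
        · rw [Polynomial.aeval_def, Polynomial.eval₂_map]
          exact hp
      have hmem : ∀ i : Option (Fin d), (i.elim u fun j => (b j : F)) ∈
          IntermediateField.adjoin ℂ (insert u (Set.range x)) := by
        intro i
        rcases i with _ | j
        · exact IntermediateField.subset_adjoin ℂ _ (Set.mem_insert _ _)
        · exact IntermediateField.adjoin.mono ℂ _ _ (Set.subset_insert u (Set.range x)) (b j).2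
      have h5 : AlgebraicIndependent ℂ (fun i : Option (Fin d) =>
          (⟨_, hmem i⟩ : IntermediateField.adjoin ℂ (insert u (Set.range x)))) := by
        refine AlgebraicIndependent.of_comp
          (IntermediateField.adjoin ℂ (insert u (Set.range x))).val ?_
        exact h1
      have h6 := h5.cardinalMk_le_trdeg
      rw [Cardinal.mk_option, Cardinal.mk_fin] at h6
      push_cast
      exact h6
  refine ratios_sys hG' (n := d + 1) (r := d + 1) hL hgen' hd' (fun Λ hΛ => ?_) le_rfl
    (fun Λ hΛ _ => deg_snoc hgen hk u Λ hΛ) hh hT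
  have := deg_snoc hgen hk u Λ hΛ
  omega

end

section

variable {K : Type} [Field K] [Algebra ℂ K] {n N q : ℕ} {β : Fin N → Fin q} {M : Fin q → ℕ}

/-- **General type from two traces.** -/
theorem gt_sys [Algebra.EssFiniteType ℂ K] (htr : Algebra.trdeg ℂ K = (n + 1 : ℕ)) {t : Fin N → K}
    (hd : Algebra.trdeg ℂ (IntermediateField.adjoin ℂ (Set.range t)) = (n : ℕ))
    {L : Type} [Field L] [Algebra ℂ L] [Algebra L K] [IsScalarTower ℂ L K]
    [FiniteDimensional L K] {ω : Fin 2 → (Fin (n + 1) → Derivation ℂ K K) → K}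
    (hω : ∀ e, IsPluri 1 (ω e))
    {ι : Type} {G : ι → IntermediateField.adjoin L (Set.range t)}
    (hreg : ∀ e a (P : Place ℂ K), Divisorial (n + 1) P → RegAt P (fun D => (G a : K) * ω e D))
    {x' : Fin N → IntermediateField.adjoin L (Set.range t)} (hx' : ∀ j, (x' j : K) = t j)
    (hG : SepSys β M x' G)
    {y : Fin (n + 1) → L} {E : Fin (n + 1) → Derivation ℂ L L}
    (hy : IsTranscendenceBasis ℂ y) (hE : ∀ i j, E i (y j) = if i = j then 1 else 0)
    {E' : Fin (n + 1) → Derivation ℂ K K}
    (hE' : ∀ i f, E' i (algebraMap L K f) = algebraMap L K (E i f))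
    (hne : Algebra.trace (IntermediateField.adjoin L (Set.range t)) K (ω 0 E') ≠ 0)
    {u : IntermediateField.adjoin L (Set.range t)}
    (hu1 : Algebra.trace (IntermediateField.adjoin L (Set.range t)) K (ω 1 E') =
      u * Algebra.trace (IntermediateField.adjoin L (Set.range t)) K (ω 0 E'))
    (hu : ¬ IsAlgebraic (IntermediateField.adjoin ℂ (Set.range t)) (u : K))
    (hm : ∀ Λ : Finset (Fin q), Λ.Nonempty → 2 * fdeg L β t Λ ≤ ∑ b ∈ Λ, M b + 1) :
    Pool.Agent.W619.Y.KodTrB ℂ L (n + 1) (fun _ => False) (n + 1) := by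
  classical
  have hessL : Algebra.EssFiniteType ℂ L := Pool.Agent.TH466.QG.ess_below (K := K)
  have hL : Algebra.trdeg ℂ L = (n + 1 : ℕ) := Pool.Agent.Y184.NT.trdeg_below (K := K) htr
  obtain ⟨W, hWdef⟩ : ∃ W : ι × Fin 2 → (Fin (n + 1) → Derivation ℂ K K) → K,
    W = fun a D => (G a.1 : K) * ω a.2 D := ⟨_, rfl⟩
  have hWp : ∀ a, IsPluri 1 (W a) := by
    intro a A D
    rw [hWdef]
    change (G a.1 : K) * ω a.2 (fun i => ∑ j, A i j • D j) = _
    rw [hω a.2 A D]
    ring
  have hWr : ∀ (a : ι × Fin 2) (P : Place ℂ K), Divisorial (n + 1) P →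
      SecAt (fun _ => False) P (W a) := by
    intro a P hP
    rw [hWdef]
    exact secAt_of (hreg a.2 a.1 P hP)
  obtain ⟨T, hTdef⟩ : ∃ T : ι × Fin 2 → L, ∀ a, T a = Algebra.trace L K (W a E') :=
    ⟨_, fun _ => rfl⟩
  have hT : ∀ a, T a = Algebra.trace L (IntermediateField.adjoin L (Set.range t))
      (G a.1 * u ^ (a.2 : ℕ) *
        Algebra.trace (IntermediateField.adjoin L (Set.range t)) K (ω 0 E')) := by
    intro a
    have h2 : W a E' = G a.1 • ω a.2 E' := by
      rw [hWdef, Algebra.smul_def]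
      rfl
    have h3 : Algebra.trace (IntermediateField.adjoin L (Set.range t)) K (ω a.2 E') =
        u ^ (a.2 : ℕ) * Algebra.trace (IntermediateField.adjoin L (Set.range t)) K (ω 0 E') := by
      obtain ⟨a1, a2⟩ := a
      fin_cases a2
      · simp
      · simpa using hu1
    rw [hTdef, h2, ← Algebra.trace_trace (S := IntermediateField.adjoin L (Set.range t)),
      map_smul, smul_eq_mul, h3, mul_assoc]
  have hθr : ∀ (a : ι × Fin 2) (P : Place ℂ L), Divisorial (n + 1) P →
      SecAt (fun _ => False) P (trForm y (T a)) := by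
    intro a P hP
    rw [hTdef]
    exact trForm_sec hL hy hE hE' (W a) (hWp a) (fun _ _ _ _ h => h) (hWr a) P hP
  have hgen : IntermediateField.adjoin L (Set.range x') = ⊤ :=
    Pool.Agent.R882.WR.gen_self x' hx'
  have hd' : Algebra.trdeg ℂ (IntermediateField.adjoin ℂ (Set.range x')) = (n : ℕ) := by
    have h1 := trdeg_map hx' Set.univ
    rw [Set.image_univ, Set.image_univ] at h1
    rw [h1]
    exact hd
  have hu' : ¬ IsAlgebraic (IntermediateField.adjoin ℂ (Set.range x')) u := by
    intro h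
    apply hu
    have htw : IsScalarTower ℂ (IntermediateField.adjoin L (Set.range t)) K :=
      IsScalarTower.of_algebraMap_eq fun r => rfl
    let φ : IntermediateField.adjoin L (Set.range t) →ₐ[ℂ] K :=
      IsScalarTower.toAlgHom ℂ (IntermediateField.adjoin L (Set.range t)) K
    have h1 : (IntermediateField.adjoin ℂ (Set.range x')).map φ =
        IntermediateField.adjoin ℂ (Set.range t) := by
      rw [IntermediateField.adjoin_map]
      congr 1
      ext z
      constructor
      · rintro ⟨_, ⟨j, rfl⟩, rfl⟩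
        exact ⟨j, (hx' j).symm⟩
      · rintro ⟨j, rfl⟩
        exact ⟨x' j, ⟨j, rfl⟩, hx' j⟩
    have hmem : ∀ z : IntermediateField.adjoin ℂ (Set.range x'),
        ((z : IntermediateField.adjoin L (Set.range t)) : K) ∈
          IntermediateField.adjoin ℂ (Set.range t) := by
      intro z
      rw [← h1]
      exact ⟨z, z.2, rfl⟩
    let g : IntermediateField.adjoin ℂ (Set.range x') →+* IntermediateField.adjoin ℂ (Set.range t) :=
      { toFun := fun z => ⟨((z : IntermediateField.adjoin L (Set.range t)) : K), hmem z⟩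
        map_one' := rfl
        map_mul' := fun _ _ => rfl
        map_zero' := rfl
        map_add' := fun _ _ => rfl }
    obtain ⟨p, hp0, hp⟩ := h
    refine ⟨p.map g, (Polynomial.map_ne_zero_iff g.injective).2 hp0, ?_⟩
    rw [Polynomial.aeval_def, Polynomial.eval₂_map]
    have h2 := congrArg (algebraMap (IntermediateField.adjoin L (Set.range t)) K) hp
    rw [Polynomial.aeval_def, Polynomial.hom_eval₂, map_zero] at h2
    exact h2
  obtain ⟨s, hs0, hs⟩ := ratios_snoc (n := n) hG hL hgen hd' (fun Λ hΛ => by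
    rw [fdeg_eq hx']
    exact hm Λ hΛ) hu' hne hT
  exact Pool.Agent.K4H25.AB.kod_ratios (T := T) (s := s) hE (fun a P hP => hθr a P hP) hs0 hs

end

end Pool.Agent.K4H62.IT
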