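import Pool.Agent.K4H62.IT.Geo
import Pool.Agent.K4H62.IT.Gt
import Pool.Agent.K4H25.PC.Full
import Pool.Agent.R882.UC

/-!
The inequality of Iitaka for fibrations of the images of a variety which is fibred by curves.
-/

set_option autoImplicit false
set_option linter.overlappingInstances false
set_option linter.unusedSectionVars false
set_option maxHeartbeats 4000000
set_option synthInstance.maxHeartbeats 400000

open FF Module Pool.Agent Pool.Agent.W602.GT Pool.Agent.W603.LV
open Pool.Agent.W619.PQ (IsUniruled)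
open Pool.Agent.W619.Y (KodTr)
open Pool.Agent.R882.LT (TraceNe)

namespace Pool.Agent.K4H62.IT

open Pool.Agent.K4H25.MG Pool.Agent.K4H25.PC

/-- the two definitions of the Kodaira dimension -/
theorem tr_of_kodGe {k K : Type} [Field k] [Field K] [Algebra k K] {n h : ℕ}
    (hk : KodGe k K n (fun _ => False) h) : KodTr k K n h := by
  obtain ⟨N, hN, ω, h1, D, hD, h2⟩ := hk
  refine ⟨N, hN, ω, fun l => ⟨(h1 l).1, fun v hv _ D' hD' => ?_, fun v _ hB => hB.elim⟩, D,
    fun l => ?_, h2⟩
  · rcases (h1 l).2.2 v hv (fun h => h) D' (fun i => hD' i) with h | h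
    · exact Or.inl h
    · refine Or.inr ⟨1, Finset.mem_singleton_self _, one_ne_zero, ?_⟩
      rw [Nat.cast_zero, zero_mul]
      exact h
  · refine Fin.cases hD (fun i => ?_) l
    intro h0
    have h3 := h2.ne_zero i
    rw [h0, zero_div] at h3
    exact h3 rfl

section

variable {K : Type} [Field K] [Algebra ℂ K] {n N q : ℕ} {β : Fin N → Fin q} {M : Fin q → ℕ}

/-- General type, or the traces are proportional. -/
theorem gt_or_prop [Algebra.EssFiniteType ℂ K] (hK : Algebra.trdeg ℂ K = (n + 1 : ℕ))
    {t : Fin N → K}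
    (hd : Algebra.trdeg ℂ (IntermediateField.adjoin ℂ (Set.range t)) = (n : ℕ))
    (hcl : ∀ g : K, IsAlgebraic (IntermediateField.adjoin ℂ (Set.range t)) g →
      g ∈ IntermediateField.adjoin ℂ (Set.range t))
    {J : Type} [Finite J] {ω : J → (Fin (n + 1) → Derivation ℂ K K) → K}
    (hω : ∀ j, IsPluri 1 (ω j))
    (L : Type) [Field L] [Algebra ℂ L] [Algebra L K] [IsScalarTower ℂ L K]
    [FiniteDimensional L K] {ι : Type} {G : ι → IntermediateField.adjoin L (Set.range t)}
    (hreg : ∀ j a (P : Place ℂ K), Divisorial (n + 1) P → RegAt P (fun D => (G a : K) * ω j D))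
    {x' : Fin N → IntermediateField.adjoin L (Set.range t)} (hx' : ∀ j, (x' j : K) = t j)
    (hG : SepSys β M x' G)
    (hm : ∀ Λ : Finset (Fin q), Λ.Nonempty → 2 * fdeg L β t Λ ≤ ∑ b ∈ Λ, M b + 1) :
    Pool.Agent.W619.Y.KodTrB ℂ L (n + 1) (fun _ => False) (n + 1) ∨
    ∀ (Ef : Fin (n + 1) → Derivation ℂ K K)
      (D0 : Fin (n + 1) → Derivation ℂ
        ((IntermediateField.adjoin L (Set.range t)).restrictScalars ℂ)
        ((IntermediateField.adjoin L (Set.range t)).restrictScalars ℂ)),
      (∀ i (z : (IntermediateField.adjoin L (Set.range t)).restrictScalars ℂ), Ef i (z : K) =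
        ((D0 i z : (IntermediateField.adjoin L (Set.range t)).restrictScalars ℂ) : K)) →
      ∃ h0 : IntermediateField.adjoin L (Set.range t), ∀ j,
        ∃ b ∈ IntermediateField.adjoin ℂ (Set.range t),
          ((Algebra.trace (IntermediateField.adjoin L (Set.range t)) K (ω j Ef) :
            IntermediateField.adjoin L (Set.range t)) : K) = b * (h0 : K) := by
  classical
  have hL : Algebra.trdeg ℂ L = (n + 1 : ℕ) := Pool.Agent.Y184.NT.trdeg_below (K := K) hK
  obtain ⟨z, E, hz, hE⟩ := Pool.Agent.Y172.exists_crd (k := ℂ) (K := L) hL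
  choose E' hE' using fun i => Pool.Agent.Y172.exists_lift (k := ℂ) (K := L) (L := K) hL (E i)
  have hzK : IsTranscendenceBasis ℂ (fun j => algebraMap L K (z j)) := hz.algebraMap_comp
  have hE'd := Pool.Agent.Y172.lift_dual hE hE'
  obtain ⟨T, hT⟩ : ∃ T : J → IntermediateField.adjoin L (Set.range t),
    ∀ j, T j = Algebra.trace (IntermediateField.adjoin L (Set.range t)) K (ω j E') :=
      ⟨_, fun _ => rfl⟩
  by_cases hgt : ∃ j0 j1, T j0 ≠ 0 ∧
      ¬ IsAlgebraic (IntermediateField.adjoin ℂ (Set.range t)) ((T j1 / T j0 :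
        IntermediateField.adjoin L (Set.range t)) : K)
  · left
    obtain ⟨j0, j1, h0, h1⟩ := hgt
    refine gt_sys (n := n) (ω := fun e : Fin 2 => if e = 0 then ω j0 else ω j1) (u := T j1 / T j0)
      hK hd (fun e => ?_) (G := G) (fun e a P hP => ?_) hx' hG hz hE hE' ?_ ?_ h1 hm
    · by_cases he : e = 0
      · rw [if_pos he]
        exact hω j0
      · rw [if_neg he]
        exact hω j1
    · by_cases he : e = 0
      · rw [if_pos he]
        exact hreg j0 a P hP
      · rw [if_neg he]
        exact hreg j1 a P hP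
    · change Algebra.trace (IntermediateField.adjoin L (Set.range t)) K (ω j0 E') ≠ 0
      rw [← hT]
      exact h0
    · change Algebra.trace (IntermediateField.adjoin L (Set.range t)) K (ω j1 E') =
        T j1 / T j0 * Algebra.trace (IntermediateField.adjoin L (Set.range t)) K (ω j0 E')
      rw [← hT, ← hT, div_mul_cancel₀ _ h0]
  right
  push Not at hgt
  intro Ef D0 hEf
  -- proportional traces for the frame of `L`
  obtain ⟨h0, hh0⟩ : ∃ h0 : IntermediateField.adjoin L (Set.range t), ∀ j,
      ∃ b ∈ IntermediateField.adjoin ℂ (Set.range t), ((T j : IntermediateField.adjoin L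
        (Set.range t)) : K) = b * (h0 : K) := by
    by_cases hall : ∃ j0, T j0 ≠ 0
    · obtain ⟨j0, hj0⟩ := hall
      refine ⟨T j0, fun j => ⟨_, hcl _ (hgt j0 j hj0), ?_⟩⟩
      have h1 : T j = T j / T j0 * T j0 := (div_mul_cancel₀ _ hj0).symm
      conv_lhs => rw [h1]
      rfl
    · push Not at hall
      exact ⟨0, fun j => ⟨0, zero_mem _, by rw [hall j]; simp⟩⟩
  -- the change of the frame
  have hLF : ∀ f : L, algebraMap L K f ∈
      (IntermediateField.adjoin L (Set.range t)).restrictScalars ℂ := fun f =>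
    (IntermediateField.adjoin L (Set.range t)).algebraMap_mem f
  obtain ⟨δ, hδ⟩ : ∃ δ : (IntermediateField.adjoin L (Set.range t)).restrictScalars ℂ,
    δ = (Matrix.of fun i j => D0 i ⟨algebraMap L K (z j), hLF _⟩ :
      Matrix (Fin (n + 1)) (Fin (n + 1)) ((IntermediateField.adjoin L
        (Set.range t)).restrictScalars ℂ)).det := ⟨_, rfl⟩
  obtain ⟨δ', hδ'⟩ : ∃ δ' : IntermediateField.adjoin L (Set.range t), (δ' : K) = (δ : K) :=
    ⟨⟨(δ : K), δ.2⟩, rfl⟩
  refine ⟨δ' * h0, fun j => ?_⟩
  obtain ⟨b, hb, hbT⟩ := hh0 j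
  refine ⟨b, hb, ?_⟩
  have h2 : ω j Ef = δ' • ω j E' := by
    rw [Pool.Agent.Y172.pluri_coord hzK hE'd (hω j) Ef, pow_one, Algebra.smul_def]
    change _ = (δ' : K) * _
    rw [hδ', hδ]
    congr 1
    have h3 : (((Matrix.of fun i j => D0 i ⟨algebraMap L K (z j), hLF _⟩ :
      Matrix (Fin (n + 1)) (Fin (n + 1)) ((IntermediateField.adjoin L
        (Set.range t)).restrictScalars ℂ)).det :
        (IntermediateField.adjoin L (Set.range t)).restrictScalars ℂ) : K) =
        algebraMap ((IntermediateField.adjoin L (Set.range t)).restrictScalars ℂ) K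
        (Matrix.of fun i j => D0 i ⟨algebraMap L K (z j), hLF _⟩ :
      Matrix (Fin (n + 1)) (Fin (n + 1)) ((IntermediateField.adjoin L
        (Set.range t)).restrictScalars ℂ)).det := rfl
    rw [h3, RingHom.map_det]
    congr 1
    ext i j
    rw [RingHom.mapMatrix_apply, Matrix.map_apply, Matrix.of_apply, Matrix.of_apply]
    exact hEf i ⟨algebraMap L K (z j), hLF _⟩
  rw [h2, map_smul, ← hT, smul_eq_mul]
  push_cast
  rw [hbT]
  ring

/-- **The inequality of Iitaka.** -/
theorem iitaka_sys [Algebra.EssFiniteType ℂ K] (hK : Algebra.trdeg ℂ K = (n + 1 : ℕ))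
    {t : Fin N → K}
    (hd : Algebra.trdeg ℂ (IntermediateField.adjoin ℂ (Set.range t)) = (n : ℕ))
    (hcl : ∀ g : K, IsAlgebraic (IntermediateField.adjoin ℂ (Set.range t)) g →
      g ∈ IntermediateField.adjoin ℂ (Set.range t))
    {J : Type} [Finite J] {ω : J → (Fin (n + 1) → Derivation ℂ K K) → K}
    (hω : ∀ j, IsPluri 1 (ω j))
    (hspan : Pool.Agent.R882.GL.SpanFib (IntermediateField.adjoin ℂ (Set.range t)) ω)
    (L : Type) [Field L] [Algebra ℂ L] [Algebra L K] [IsScalarTower ℂ L K]
    [FiniteDimensional L K] {ι : Type} {G : ι → IntermediateField.adjoin L (Set.range t)}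
    {c : K} (hc : c ∈ IntermediateField.adjoin ℂ (Set.range t)) (hc0 : c ≠ 0)
    (hreg0 : ∀ j (P : Place ℂ K), Divisorial (n + 1) P → RegAt P (fun D => c * ω j D))
    (hreg : ∀ j a (P : Place ℂ K), Divisorial (n + 1) P → RegAt P (fun D => (G a : K) * ω j D))
    {x' : Fin N → IntermediateField.adjoin L (Set.range t)} (hx' : ∀ j, (x' j : K) = t j)
    (hG : SepSys β M x' G)
    (hm : ∀ Λ : Finset (Fin q), Λ.Nonempty → 2 * fdeg L β t Λ ≤ ∑ b ∈ Λ, M b + 1)
    (E : IntermediateField ℂ L) [hessE : Algebra.EssFiniteType ℂ E]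
    {d f' p q' : ℕ} (hdE : Algebra.trdeg ℂ E = d) (hf' : Algebra.trdeg E L = f')
    (h1 : KodGe ℂ E d (fun _ => False) p) (h2 : KodGe E L f' (fun _ => False) q') :
    KodGe ℂ L (n + 1) (fun _ => False) (p + q') := by
  classical
  have hL : Algebra.trdeg ℂ L = (n + 1 : ℕ) := Pool.Agent.Y184.NT.trdeg_below (K := K) hK
  have hessL : Algebra.EssFiniteType ℂ L := Pool.Agent.TH466.QG.ess_below (K := K)
  have hnu : ¬ IsUniruled ℂ L (n + 1) := fun h5 =>
    Pool.Agent.R882.UA.fib_not hL h5 E hdE hf' (Pool.Agent.R882.UA.kod_mono h1 (Nat.zero_le _))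
      (psef_of_kodGe (Pool.Agent.R882.UA.kod_mono h2 (Nat.zero_le _)))
  have hdf : d + f' = n + 1 := by
    have h3 := trdeg_add_eq ℂ E (A := L)
    rw [hdE, hf', hL] at h3
    exact_mod_cast h3
  have hp := Pool.Agent.R882.UA.kod_le_dim hdE h1
  have hq := Pool.Agent.R882.UA.kod_le_dim hf' h2
  have hleB : IntermediateField.adjoin ℂ (Set.range t) ≤
      (IntermediateField.adjoin L (Set.range t)).restrictScalars ℂ := by
    rw [IntermediateField.adjoin_le_iff]
    exact IntermediateField.subset_adjoin L _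
  have hωc : ∀ j, IsPluri 1 (fun D => c * ω j D) := by
    intro j A D
    have h1 := hω j A D
    change c * ω j _ = _
    rw [h1]
    ring
  by_cases hle : p + q' ≤ n
  · obtain ⟨j, htr⟩ : ∃ j, TraceNe (ω j)
        ((IntermediateField.adjoin L (Set.range t)).restrictScalars ℂ) := by
      by_contra hcon
      push Not at hcon
      exact hnu (Pool.Agent.K4H25.AB.uniruled_of (ω := fun j D => c * ω j D) hK hd hcl hωc hreg0
        (span_smul hspan hc hc0) L fun j h => hcon j (traceNe_of_mul (hleB hc) h))
    obtain ⟨-, h3⟩ := core_sys (β := β) (M := M) (G := G) hK hd (hω j) (hreg j) hx' hG htr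
      (fun Λ hΛ => by
        have := hm Λ hΛ
        omega)
    exact Pool.Agent.R882.UA.kod_mono
      (Pool.Agent.R882.KR.kodGe_of_tr (h3 n le_rfl fun Λ hΛ _ => hm Λ hΛ)) hle
  · obtain rfl : p = d := by omega
    obtain rfl : q' = f' := by omega
    rw [hdf]
    rcases gt_or_prop hK hd hcl hω L hreg hx' hG hm with h3 | h3
    · exact Pool.Agent.R882.KR.kodGe_of_tr h3
    exfalso
    apply hnu
    obtain ⟨E', hE'⟩ : ∃ E' : IntermediateField (IntermediateField.adjoin ℂ (Set.range t)) K,
        E' = IntermediateField.extendScalars hleB := ⟨_, rfl⟩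
    have hE'r : E'.restrictScalars ℂ =
        (IntermediateField.adjoin L (Set.range t)).restrictScalars ℂ := by
      rw [hE']
      exact IntermediateField.extendScalars_restrictScalars hleB
    have hmemE' : ∀ z : K, z ∈ E' ↔ z ∈ IntermediateField.adjoin L (Set.range t) := by
      intro z
      rw [hE']
      exact Iff.rfl
    have hfinE : FiniteDimensional E' K := by
      have h1 : FiniteDimensional (IntermediateField.adjoin L (Set.range t)) K := inferInstance
      rw [hE']
      exact h1
    let ψ : L →+* E' :=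
      { toFun := fun g => ⟨algebraMap L K g, (hmemE' _).2
          ((IntermediateField.adjoin L (Set.range t)).algebraMap_mem g)⟩
        map_one' := Subtype.ext (map_one _)
        map_mul' := fun a b => Subtype.ext (map_mul _ _ _)
        map_zero' := Subtype.ext (map_zero _)
        map_add' := fun a b => Subtype.ext (map_add _ _ _) }
    let iL : Algebra L E' := ψ.toAlgebra
    have tL : IsScalarTower ℂ L E' := IsScalarTower.of_algebraMap_eq fun c => by
      apply Subtype.ext
      change algebraMap ℂ K c = algebraMap L K (algebraMap ℂ L c)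
      rw [← IsScalarTower.algebraMap_apply ℂ L K]
    have tK : IsScalarTower L E' K := IsScalarTower.of_algebraMap_eq fun c => rfl
    have hfinL : FiniteDimensional L E' := by
      have : Module.Finite L K := inferInstance
      exact Module.Finite.of_injective (IsScalarTower.toAlgHom L E' K).toLinearMap
        (algebraMap E' K).injective
    have huni : IsUniruled ℂ (E'.restrictScalars ℂ) (n + 1) := by
      refine prop_geo hK _ hd hcl E' (fun j D => c * ω j D) hωc hreg0 (span_smul hspan hc hc0)
        (fun D0 Ef hEf => ?_) E hdE hf' (tr_of_kodGe h1) (tr_of_kodGe h2)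
      obtain ⟨h0, hh0⟩ : ∃ h0 : IntermediateField.adjoin L (Set.range t), ∀ j,
        ∃ b ∈ IntermediateField.adjoin ℂ (Set.range t),
          ((Algebra.trace (IntermediateField.adjoin L (Set.range t)) K (ω j Ef) :
            IntermediateField.adjoin L (Set.range t)) : K) = b * (h0 : K) := by
        have hc : ∀ (X : IntermediateField ℂ K) (hX : X =
            (IntermediateField.adjoin L (Set.range t)).restrictScalars ℂ)
            (D0 : Fin (n + 1) → Derivation ℂ X X),
            (∀ i (z : X), Ef i (z : K) = ((D0 i z : X) : K)) →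
            ∃ h0 : IntermediateField.adjoin L (Set.range t), ∀ j,
              ∃ b ∈ IntermediateField.adjoin ℂ (Set.range t),
                ((Algebra.trace (IntermediateField.adjoin L (Set.range t)) K (ω j Ef) :
                  IntermediateField.adjoin L (Set.range t)) : K) = b * (h0 : K) := by
          intro X hX D0 hD0
          subst hX
          exact h3 Ef D0 hD0
        exact hc _ hE'r D0 hEf
      refine ⟨⟨(h0 : K), (hmemE' _).2 h0.2⟩, fun j => ?_⟩
      obtain ⟨b, hb, hbj⟩ := hh0 j
      refine ⟨⟨c * b, mul_mem hc hb⟩, ?_⟩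
      have h4 : Algebra.trace E' K (c * ω j Ef) = (⟨c, (hmemE' _).2 (hleB hc)⟩ : E') *
          Algebra.trace E' K (ω j Ef) := by
        have h5 : c * ω j Ef = (⟨c, (hmemE' _).2 (hleB hc)⟩ : E') • ω j Ef := rfl
        rw [h5, map_smul, smul_eq_mul]
      change Algebra.trace E' K (c * ω j Ef) = _
      rw [h4]
      apply Subtype.ext
      change c * ((Algebra.trace E' K (ω j Ef) : E') : K) = (c * b) * (h0 : K)
      rw [mul_assoc, ← hbj]
      congr 1
      subst hE'
      rfl
    rw [hE'r] at huni
    obtain ⟨C, i1, i2, hC, htr, ⟨χ⟩⟩ := huni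
    let φ : L →ₐ[ℂ] ((IntermediateField.adjoin L (Set.range t)).restrictScalars ℂ :
        IntermediateField ℂ K) :=
      { toFun := fun g => ⟨algebraMap L K g,
          (IntermediateField.adjoin L (Set.range t)).algebraMap_mem g⟩
        map_one' := Subtype.ext (map_one _)
        map_mul' := fun a b => Subtype.ext (map_mul _ _ _)
        map_zero' := Subtype.ext (map_zero _)
        map_add' := fun a b => Subtype.ext (map_add _ _ _)
        commutes' := fun c => Subtype.ext (IsScalarTower.algebraMap_apply ℂ L K c).symm }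
    exact ⟨C, i1, i2, hC, htr, ⟨χ.comp φ⟩⟩

end

end Pool.Agent.K4H62.IT
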