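import Pool.Agent.K4H25.PC.Sys

/-!
Monomials of bounded degree separate points.
-/

set_option autoImplicit false
set_option linter.unusedSectionVars false
set_option linter.overlappingInstances false

open Module

namespace Pool.Agent.K4H62.IT

open Pool.Agent.K4H25.PC

/-- **Monomials of degree at most `M`.** -/
theorem sepSys_mono {F : Type} [Field F] [Algebra ℂ F] {N M : ℕ} (x : Fin N → F) :
    SepSys (q := 1) (fun _ : Fin N => (0 : Fin 1)) (fun _ => M) x
      (fun a : {a : Fin N → ℕ // ∑ j, a j ≤ M} => ∏ j, x j ^ a.1 j) := by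
  classical
  intro Ω κ _ _ S c φ hφ hrel s0 hs0 l hl hM
  have hΛ : ∀ P : MvPolynomial (Fin N) Ω, P.totalDegree ≤ M →
      ∑ s ∈ S, c s * MvPolynomial.eval (fun j => φ s (x j)) P = 0 := by
    intro P hP
    have h1 : ∀ s ∈ S, c s * MvPolynomial.eval (fun j => φ s (x j)) P =
        ∑ m ∈ P.support, P.coeff m * (c s * ∏ j, φ s (x j) ^ m j) := by
      intro s _
      rw [MvPolynomial.eval_eq', Finset.mul_sum]
      refine Finset.sum_congr rfl fun m _ => ?_
      ring
    rw [Finset.sum_congr rfl h1, Finset.sum_comm]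
    refine Finset.sum_eq_zero fun m hm => ?_
    rw [← Finset.mul_sum]
    have hdeg : ∑ j, m j ≤ M := by
      have h2 := MvPolynomial.le_totalDegree hm
      rw [Finsupp.sum_fintype _ _ (fun _ => rfl)] at h2
      exact h2.trans hP
    have h2 := hrel ⟨fun j => m j, hdeg⟩
    have h3 : ∑ s ∈ S, c s * ∏ j, φ s (x j) ^ m j = 0 := by
      rw [← h2]
      refine Finset.sum_congr rfl fun s _ => ?_
      rw [map_prod]
      congr 1
      refine Finset.prod_congr rfl fun j _ => ?_
      rw [map_pow]
    rw [h3, mul_zero]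
  obtain ⟨P, hP⟩ : ∃ P : MvPolynomial (Fin N) Ω, P = ∏ s : {s // s ∈ S.erase s0},
      (MvPolynomial.X (l s) - MvPolynomial.C (φ s (x (l s)))) := ⟨_, rfl⟩
  have hdeg : P.totalDegree ≤ M := by
    have h1 := hM 0
    have h2 : (Finset.univ.filter fun s : {s // s ∈ S.erase s0} => (0 : Fin 1) = 0) =
        Finset.univ := by simp
    rw [h2, Finset.card_univ] at h1
    refine le_trans ?_ h1
    rw [hP]
    refine (MvPolynomial.totalDegree_finset_prod _ _).trans ?_
    refine (Finset.sum_le_card_nsmul _ _ 1 fun s _ => ?_).trans ?_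
    · refine (MvPolynomial.totalDegree_sub _ _).trans ?_
      rw [MvPolynomial.totalDegree_X, MvPolynomial.totalDegree_C]
      exact le_rfl
    · rw [Finset.card_univ, smul_eq_mul, mul_one]
  have heval : ∀ ψ : Fin N → Ω, MvPolynomial.eval ψ P =
      ∏ s : {s // s ∈ S.erase s0}, (ψ (l s) - φ s (x (l s))) := by
    intro ψ
    rw [hP, map_prod]
    refine Finset.prod_congr rfl fun s _ => ?_
    rw [map_sub, MvPolynomial.eval_X, MvPolynomial.eval_C]
  have h1 := hΛ P hdeg
  rw [Finset.sum_eq_single s0] at h1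
  · refine (mul_eq_zero.1 h1).resolve_right ?_
    rw [heval]
    refine Finset.prod_ne_zero_iff.2 fun s _ => ?_
    exact sub_ne_zero.2 (hl s).symm
  · intro s hs hne
    rw [heval, Finset.prod_eq_zero (Finset.mem_univ (⟨s, Finset.mem_erase.2 ⟨hne, hs⟩⟩ :
      {s // s ∈ S.erase s0})) (sub_self _), mul_zero]
  · intro h
    exact absurd hs0 h

end Pool.Agent.K4H62.IT
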