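import Pool.Agent.K4H62.IT.Iit
import Pool.Agent.K4H62.IT.Mono

/-!
The inequality of Iitaka: fibrations by curves and products of curves.
-/

set_option autoImplicit false
set_option linter.overlappingInstances false
set_option linter.unusedSectionVars false
set_option maxHeartbeats 4000000
set_option synthInstance.maxHeartbeats 400000

open FF Module Pool.Agent Pool.Agent.W602.GT Pool.Agent.R885
open Pool.Agent.W603.LV (vo vo_eq Ge)
open Pool.Agent.R882.LT (TraceNe)
open Pool.Agent.R882.GL (SpanFib)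
open Pool.Agent.W619.PQ (IsUniruled)
open Pool.Agent.W619.TW (MM le_MM cur_MM)

namespace Pool.Agent.K4H62.IT

open Pool.Agent.K4H25.MG Pool.Agent.K4H25.PC

section

variable {n N M : ℕ} {K : Type} [Field K] [Algebra ℂ K] [Algebra.EssFiniteType ℂ K]
  {t : Fin N → K} {J : Type} [Finite J] {ω : J → (Fin (n + 1) → Derivation ℂ K K) → K}

/-- **The inequality of Iitaka for the images of fibrations by curves.** -/
theorem iitaka_ab (hK : Algebra.trdeg ℂ K = (n + 1 : ℕ))
    (hd : Algebra.trdeg ℂ (IntermediateField.adjoin ℂ (Set.range t)) = (n : ℕ))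
    (hcl : ∀ g : K, IsAlgebraic (IntermediateField.adjoin ℂ (Set.range t)) g →
      g ∈ IntermediateField.adjoin ℂ (Set.range t))
    (hω : ∀ j, Pool.Agent.R882.LT.IsTwisted (n + 1) M t (ω j))
    (hspan : SpanFib (IntermediateField.adjoin ℂ (Set.range t)) ω)
    (L : Type) [Field L] [Algebra ℂ L] [Algebra L K] [IsScalarTower ℂ L K]
    [FiniteDimensional L K]
    (hs : 2 * Module.finrank L (IntermediateField.adjoin L (Set.range t)) ≤ M + 1)
    (E : IntermediateField ℂ L) [hessE : Algebra.EssFiniteType ℂ E]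
    {d f' p q' : ℕ} (hdE : Algebra.trdeg ℂ E = d) (hf' : Algebra.trdeg E L = f')
    (h1 : KodGe ℂ E d (fun _ => False) p) (h2 : KodGe E L f' (fun _ => False) q') :
    KodGe ℂ L (n + 1) (fun _ => False) (p + q') := by
  classical
  obtain ⟨x', hx'⟩ : ∃ x' : Fin N → IntermediateField.adjoin L (Set.range t),
    ∀ j, (x' j : K) = t j :=
    ⟨fun j => ⟨t j, IntermediateField.subset_adjoin L _ ⟨j, rfl⟩⟩, fun _ => rfl⟩
  refine iitaka_sys (β := fun _ : Fin N => (0 : Fin 1)) (M := fun _ => M)
    (G := fun a : {a : Fin N → ℕ // ∑ j, a j ≤ M} => ∏ j, x' j ^ a.1 j) hK hd hcl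
    (fun j => (hω j).1) hspan L (c := 1) (one_mem _) one_ne_zero (fun j P hP => ?_)
    (fun j a P hP => ?_) hx' (sepSys_mono x') (fun Λ hΛ => ?_) E hdE hf' h1 h2
  · have h3 := Pool.Agent.K4H25.AB.reg_of_twisted (hω j) P hP
    intro D hD
    have h4 := h3 D hD
    change P.Reg (1 * ω j D)
    rw [one_mul]
    exact h4
  · have h3 := (hω j).2 a.1 a.2 P hP
    have h4 : ((∏ j, x' j ^ a.1 j : IntermediateField.adjoin L (Set.range t)) : K) =
        ∏ j, t j ^ a.1 j := by
      push_cast
      simp only [hx']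
    rw [h4]
    exact h3
  · have h3 : t '' {j : Fin N | (0 : Fin 1) ∉ Λ} = ∅ := by
      obtain ⟨b, hb⟩ := hΛ
      have h4 : b = 0 := Subsingleton.elim _ _
      subst h4
      simp [hb]
    have h4 : fdeg L (fun _ : Fin N => (0 : Fin 1)) t Λ =
        Module.finrank L (IntermediateField.adjoin L (Set.range t)) := by
      rw [fdeg, h3, IntermediateField.adjoin_empty, IntermediateField.relfinrank_bot_left]
    rw [h4]
    obtain ⟨b, hb⟩ := hΛ
    have h5 : M ≤ ∑ b ∈ Λ, M := Finset.single_le_sum (f := fun _ : Fin 1 => M)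
      (fun _ _ => Nat.zero_le _) hb
    omega

end

section

variable {K : Type} [Field K] [Algebra ℂ K] {n : ℕ} {C : Fin (n + 1) → IntermediateField ℂ K}
  [∀ p, IsFF ℂ (C p)]

/-- **The inequality of Iitaka for the images of products of curves.** -/
theorem iitaka_pc (hsup : ⨆ p, C p = ⊤) (hn : Algebra.trdeg ℂ K = (n + 1 : ℕ)) {M : Fin n → ℕ}
    (hgon : ∀ (p : Fin n) (b : C p.succ), Transcendental ℂ b →
      M p + 1 < finrank (IntermediateField.adjoin ℂ {b}) (C p.succ))
    (L : Type) [Field L] [Algebra ℂ L] [Algebra L K] [IsScalarTower ℂ L K]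
    [FiniteDimensional L K]
    (hm : ∀ Λ : Finset (Fin n), Λ.Nonempty →
      2 * cdeg L (fun p : Fin n => C p.succ) Λ ≤ ∑ b ∈ Λ, M b + 1)
    (E : IntermediateField ℂ L) [hessE : Algebra.EssFiniteType ℂ E]
    {d f' p q' : ℕ} (hdE : Algebra.trdeg ℂ E = d) (hf' : Algebra.trdeg E L = f')
    (h1 : KodGe ℂ E d (fun _ => False) p) (h2 : KodGe E L f' (fun _ => False) q') :
    KodGe ℂ L (n + 1) (fun _ => False) (p + q') := by
  classical
  have hess : Algebra.EssFiniteType ℂ K := by
    obtain ⟨N, β, t, -, hgens⟩ := exists_gens (C := C)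
    have h1 := hgens ∅ ℂ
    have h2 : t '' {j | β j ∉ (∅ : Finset (Fin (n + 1)))} = Set.range t := by
      rw [← Set.image_univ]
      congr 1
      ext j
      simp
    have h3 : IntermediateField.adjoin ℂ (Set.range t) = ⊤ := by
      rw [← h2, h1, eq_top_iff, ← hsup]
      refine iSup_le fun p z hz => ?_
      exact IntermediateField.subset_adjoin ℂ _ ⟨p, by simp, hz⟩
    rw [← IntermediateField.fg_top_iff, ← h3]
    exact ⟨Finset.univ.image t, by rw [Finset.coe_image, Finset.coe_univ, Set.image_univ]⟩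
  have hess' : Algebra.EssFiniteType ℂ L := Pool.Agent.TH466.QG.ess_below (K := K)
  have hL : Algebra.trdeg ℂ L = (n + 1 : ℕ) := Pool.Agent.Y184.NT.trdeg_below (K := K) hn
  have hx : ∀ p, ∃ x : C p, Transcendental ℂ x := fun p =>
    IsFF.exists_transcendental (k := ℂ) (K := C p)
  choose x hx using hx
  have hDx : ∀ p, ∃ D : Derivation ℂ (C p) (C p), D (x p) = 1 := by
    intro p
    have h1 := Pool.Agent.W603.LV.der_ne (k := ℂ) (K := C p)
    have h2 := Pool.Agent.W603.LV.der_ne_zero h1 (hx p)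
    refine ⟨(Pool.Agent.W603.LV.der ℂ (C p) (x p))⁻¹ • Pool.Agent.W603.LV.der ℂ (C p), ?_⟩
    rw [Derivation.coe_smul, Pi.smul_apply, smul_eq_mul, inv_mul_cancel₀ h2]
  choose D0 hD0 using hDx
  have hD00 : ∀ p, D0 p ≠ 0 := by
    intro p h
    have h1 := hD0 p
    rw [h] at h1
    simp at h1
  choose m s hs1 hs2 using fun p => exists_reg_fam (F := C p) (hD00 p)
  obtain ⟨ω, hω⟩ : ∃ ω : Fin (m 0) → (Fin (n + 1) → Derivation ℂ K K) → K,
    ω = fun j D => (s 0 j : K) * (Matrix.of fun i l => D i (x l : K)).det := ⟨_, rfl⟩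
  have hpl : ∀ j, IsPluri 1 (ω j) := by
    intro j A D
    have h1 := pluri_det (fun p => (x p : K)) A D
    rw [hω]
    change (s 0 j : K) * (Matrix.of fun i l => (∑ l, A i l • D l) (x l : K)).det = A.det ^ 1 * _
    change (Matrix.of fun i l => (∑ l, A i l • D l) (x l : K)).det = _ at h1
    rw [h1]
    change (s 0 j : K) * (A.det ^ 1 * _) = A.det ^ 1 * ((s 0 j : K) * _)
    ring
  have hreg : ∀ j, ∀ g : ∀ p : Fin n, C p.succ,
      (∀ p, g p = 0 ∨ ∀ Q : Place ℂ (C p.succ), vo Q (D0 p.succ) ≤ Q.ord (g p)) →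
      ∀ P : Place ℂ K, RegAt P (fun D => (∏ p, (g p : K)) * ω j D) := by
    intro j g hg P
    have h1 := reg_prod (E := C) (x := x) hD0 (g := Fin.cons (α := fun p => C p) (s 0 j) g)
      (fun p => by
        refine Fin.cases ?_ (fun p => ?_) p
        · rw [Fin.cons_zero]
          exact hs1 0 j
        · rw [Fin.cons_succ]
          exact hg p) P
    have h2 : (fun D : Fin (n + 1) → Derivation ℂ K K => (∏ p, (g p : K)) * ω j D) =
        fun D => (∏ p, ((Fin.cons (α := fun p => C p) (s 0 j) g : ∀ p, C p) p : K)) *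
          (Matrix.of fun i j => D i (x j : K)).det := by
      funext D
      rw [Fin.prod_univ_succ, Fin.cons_zero, hω]
      simp only [Fin.cons_succ]
      ring
    rw [h2]
    exact h1
  have hspan : SpanFib (MM C 0) ω := by
    rw [hω]
    exact span_prod hsup hn hx (hD0 0) (hs2 0)
  -- one regular function on the base
  have hne : ∀ p : Fin n, ∃ a, s p.succ a ≠ 0 := fun p =>
    exists_ne_sep (sepFam_of_gonality (hgon p) (hD00 p.succ) (hs2 p.succ))
  choose a0 ha0 using hne
  obtain ⟨c, hc⟩ : ∃ c : K, c = ∏ p : Fin n, (s p.succ (a0 p) : K) := ⟨_, rfl⟩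
  have hc0 : c ≠ 0 := by
    rw [hc]
    refine Finset.prod_ne_zero_iff.2 fun p _ h => ha0 p ?_
    exact Subtype.ext h
  have hcB : c ∈ MM C 0 := by
    rw [hc]
    exact prod_mem fun p _ => le_MM C (Fin.succ_ne_zero p) (s p.succ (a0 p)).2
  -- generators of the base
  obtain ⟨N, β, t, htC, hgens⟩ := exists_gens (C := fun p : Fin n => C p.succ)
  have hempty : ∀ (L : Type) [Field L] [Algebra ℂ L] [Algebra L K] [IsScalarTower ℂ L K],
      IntermediateField.adjoin L (Set.range t) =
        IntermediateField.adjoin L {z | ∃ p : Fin n, z ∈ C p.succ} := by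
    intro L _ _ _ _
    have h1 := hgens ∅ L
    have h2 : t '' {j | β j ∉ (∅ : Finset (Fin n))} = Set.range t := by
      rw [← Set.image_univ]
      congr 1
      ext j
      simp
    have h3 : {z : K | ∃ p, p ∉ (∅ : Finset (Fin n)) ∧ z ∈ C p.succ} =
        {z | ∃ p : Fin n, z ∈ C p.succ} := by
      ext z
      simp
    rw [h2, h3] at h1
    exact h1
  have hB : IntermediateField.adjoin ℂ (Set.range t) = MM C 0 := by
    rw [hempty ℂ, adjoin_eq_MM]
  have hd : Algebra.trdeg ℂ (IntermediateField.adjoin ℂ (Set.range t)) = (n : ℕ) := by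
    rw [hB]
    exact trdeg_MM hsup hn
  have hcl : ∀ g : K, IsAlgebraic (IntermediateField.adjoin ℂ (Set.range t)) g →
      g ∈ IntermediateField.adjoin ℂ (Set.range t) := by
    rw [hB]
    intro g hg
    exact cur_closed (cur_MM C hsup hn 0) hg
  have hfd : ∀ Λ, fdeg L β t Λ = cdeg L (fun p : Fin n => C p.succ) Λ := by
    intro Λ
    rw [fdeg, cdeg, hgens Λ L, hempty L]
  have hmem : ∀ (p : Fin n) (z : C p.succ), (z : K) ∈ IntermediateField.adjoin L (Set.range t) := by
    intro p z
    rw [hempty L]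
    exact IntermediateField.subset_adjoin L _ ⟨p, z.2⟩
  have hTow : IsScalarTower ℂ (IntermediateField.adjoin L (Set.range t)) K :=
    IsScalarTower.of_algebraMap_eq fun r => rfl
  let iF : ∀ p : Fin n, C p.succ →ₐ[ℂ] IntermediateField.adjoin L (Set.range t) := fun p =>
    { toFun := fun z => ⟨(z : K), hmem p z⟩
      map_one' := rfl
      map_mul' := fun _ _ => rfl
      map_zero' := rfl
      map_add' := fun _ _ => rfl
      commutes' := fun c => Subtype.ext (IsScalarTower.algebraMap_apply ℂ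
        (IntermediateField.adjoin L (Set.range t)) K c) }
  obtain ⟨x', hx'⟩ : ∃ x' : Fin N → IntermediateField.adjoin L (Set.range t),
    ∀ j, (x' j : K) = t j :=
    ⟨fun j => ⟨t j, IntermediateField.subset_adjoin L _ ⟨j, rfl⟩⟩, fun _ => rfl⟩
  have hG : SepSys β M x' (fun a : (∀ p : Fin n, Fin (m p.succ)) =>
      ∏ p, iF p (s p.succ (a p))) := by
    refine sepSys_prod (g := fun (p : Fin n) a => iF p (s p.succ a)) fun p => ?_
    refine (sepFam_of_gonality (hgon p) (hD00 p.succ) (hs2 p.succ)).comp (iF p) ?_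
    rintro _ ⟨j, rfl, rfl⟩
    refine ⟨⟨t j, htC j⟩, ?_⟩
    apply Subtype.ext
    exact (hx' j).symm
  refine iitaka_sys (β := β) (M := M) (G := fun a : (∀ p : Fin n, Fin (m p.succ)) =>
      ∏ p, iF p (s p.succ (a p))) hn hd hcl hpl (by rw [hB]; exact hspan) L
      (c := c) (by rw [hB]; exact hcB) hc0 (fun j P _ => ?_) (fun j a P hP => ?_) hx' hG
      (fun Λ hΛ => by rw [hfd]; exact hm Λ hΛ) E hdE hf' h1 h2
  · rw [hc]
    exact hreg j (fun p => s p.succ (a0 p)) (fun p => hs1 p.succ (a0 p)) P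
  · have h3 := hreg j (fun p => s p.succ (a p)) (fun p => hs1 p.succ (a p)) P
    have h4 : ((∏ p, iF p (s p.succ (a p)) : IntermediateField.adjoin L (Set.range t)) : K) =
        ∏ p, (s p.succ (a p) : K) :=
      map_prod (IntermediateField.adjoin L (Set.range t)).val _ _
    rw [h4]
    exact h3

end

end Pool.Agent.K4H62.IT
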