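import Pool.Agent.K4H25.PC.Rr

/-!
Curves with only one regular differential: pluricanonical forms are powers of it.
-/

set_option autoImplicit false
set_option linter.overlappingInstances false
set_option linter.unusedSectionVars false
set_option maxHeartbeats 4000000
set_option synthInstance.maxHeartbeats 400000

open Polynomial FF IsDedekindDomain IntermediateField

namespace Pool.Agent.K4H62.IT

open Pool.Agent.W603.LV Pool.Agent.W619.PQ

section

variable {k F : Type*} [Field k] [Field F] [Algebra k F] [CharZero k] [IsFF k F] [IsAlgClosed k]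

/-- functions without poles are constant -/
theorem const_of_reg {b : F} (hb : ∀ P : Place k F, 0 ≤ P.ord b) : ∃ c : k, b = algebraMap k F c := by
  classical
  by_cases ht : Transcendental k b
  · exfalso
    obtain ⟨T, hT, hT2⟩ := poles (k := k) (K := F) ht
    have h1 : T = ∅ := by
      rw [Finset.eq_empty_iff_forall_notMem]
      intro Q hQ
      rw [hT] at hQ
      have := hb Q
      omega
    have hfin := IsFF.finite ht
    have h2 : 0 < Module.finrank k⟮b⟯ F := Module.finrank_pos
    rw [h1, Finset.sum_empty] at hT2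
    omega
  · have h1 : IsAlgebraic k b := not_not.1 ht
    have h2 := IsAlgClosed.degree_eq_one_of_irreducible k (minpoly.irreducible h1.isIntegral)
    obtain ⟨c, hc⟩ := minpoly.mem_range_of_degree_eq_one k b h2
    exact ⟨c, hc.symm⟩

/-- The only regular differential has no zeros. -/
theorem no_zero {D : Derivation k F F} (hD : D ≠ 0)
    (hrat : ∀ b : F, Transcendental k b → 1 < Module.finrank k⟮b⟯ F) {f0 : F}
    (hone : ∀ f : F, f ≠ 0 → (∀ P : Place k F, vo P D ≤ P.ord f) → ∃ c : k, f = algebraMap k F c * f0)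
    (P : Place k F) : P.ord f0 = vo P D := by
  classical
  obtain ⟨f, hf0, hf, -, hfP⟩ := Pool.Agent.K4H25.PC.exists_sep hD P ∅ (Finset.notMem_empty _)
    (fun b hb => by
      rw [Finset.card_empty]
      exact hrat b hb)
  obtain ⟨c, hc⟩ := hone f hf0 hf
  have hc0 : c ≠ 0 := by
    rintro rfl
    rw [map_zero, zero_mul] at hc
    exact hf0 hc
  have hf00 : f0 ≠ 0 := by
    rintro rfl
    rw [mul_zero] at hc
    exact hf0 hc
  rw [← hfP, hc, P.ord_mul ((_root_.map_ne_zero _).2 hc0) hf00, P.ord_const hc0, zero_add]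

/-- Pluricanonical forms on a curve with one regular differential. -/
theorem pluri_const {D : Derivation k F F} (hD : D ≠ 0)
    (hrat : ∀ b : F, Transcendental k b → 1 < Module.finrank k⟮b⟯ F) {f0 : F} (hf0 : f0 ≠ 0)
    (hone : ∀ f : F, f ≠ 0 → (∀ P : Place k F, vo P D ≤ P.ord f) → ∃ c : k, f = algebraMap k F c * f0)
    {N : ℕ} {g : F} (hg0 : g ≠ 0) (hg : ∀ P : Place k F, (N : ℤ) * vo P D ≤ P.ord g) :
    ∃ c : k, g = algebraMap k F c * f0 ^ N := by
  classical
  have hN : f0 ^ N ≠ 0 := pow_ne_zero _ hf0
  obtain ⟨c, hc⟩ := const_of_reg (k := k) (b := g / f0 ^ N) (fun P => by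
    rw [P.ord_div hg0 hN, P.ord_pow, no_zero hD hrat hone P]
    have := hg P
    omega)
  exact ⟨c, by rw [← hc, div_mul_cancel₀ _ hN]⟩

end

end Pool.Agent.K4H62.IT
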