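import Pool.Agent.K4H62.IT.Rel

/-!
Fibrations of the images of a variety which is fibred by curves: the geometric generic fibre.
-/

set_option autoImplicit false
set_option linter.overlappingInstances false
set_option linter.unusedSectionVars false
set_option maxHeartbeats 4000000
set_option synthInstance.maxHeartbeats 400000

open IntermediateField Module FF Pool.Agent.W619.PQ Pool.Agent.W603.LV Pool.Agent.W619.TW
  Pool.Agent.W619.Y Pool.Agent.Y174 Pool.Agent.R882.GL

namespace Pool.Agent.K4H62.IT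

section

variable {Λ F : Type} [Field Λ] [Field F] [Algebra Λ F] [CharZero Λ] [IsFF Λ F] [IsAlgClosed Λ]

/-- If all regular differentials are proportional then the same is true of the pluricanonical
forms. -/
theorem uniq_of {D0 : Derivation Λ F F} (hD0 : D0 ≠ 0) (hrat : ¬ ∃ s : F, Λ⟮s⟯ = ⊤) {f0 : F}
    (hone : ∀ f : F, f ≠ 0 → (∀ P : Place Λ F, vo P D0 ≤ P.ord f) →
      ∃ c : Λ, f = algebraMap Λ F c * f0) : Uniq Λ F := by
  classical
  have hrat' : ∀ b : F, Transcendental Λ b → 1 < Module.finrank Λ⟮b⟯ F := by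
    intro b hb
    by_contra hle
    push Not at hle
    have hfin := IsFF.finite hb
    have hpos : 0 < Module.finrank Λ⟮b⟯ F := Module.finrank_pos
    have h1 : Module.finrank Λ⟮b⟯ F = 1 := by omega
    exact hrat ⟨b, IntermediateField.finrank_eq_one_iff_eq_top.1 h1⟩
  obtain ⟨f, hf0, hf⟩ := exists_regular (k := Λ) (F := F) hrat hD0
  obtain ⟨c0, hc0⟩ := hone f hf0 hf
  have hf00 : f0 ≠ 0 := by
    rintro rfl
    rw [mul_zero] at hc0
    exact hf0 hc0
  intro N D hD g1 g2 hg1 hg2 h1 h2
  obtain ⟨u, hu⟩ := der_smul (D' := D) hD0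
  have hu0 : u ≠ 0 := by
    rintro rfl
    rw [zero_smul] at hu
    exact hD hu
  have huN : u ^ N ≠ 0 := pow_ne_zero _ hu0
  have key : ∀ g : F, g ≠ 0 → (∀ P : Place Λ F, (N : ℤ) * vo P D ≤ P.ord g) →
      ∃ c : Λ, g = algebraMap Λ F c * f0 ^ N * u ^ N := by
    intro g hg h
    obtain ⟨c, hc⟩ := pluri_const hD0 hrat' hf00 hone (N := N) (g := g / u ^ N)
      (div_ne_zero hg huN) (fun P => by
        rw [P.ord_div hg huN, P.ord_pow]
        have h3 := h P
        rw [hu, vo_smul P hD0 hu0] at h3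
        linarith)
    exact ⟨c, by rw [← hc, div_mul_cancel₀ _ huN]⟩
  obtain ⟨c1, hc1⟩ := key g1 hg1 h1
  obtain ⟨c2, hc2⟩ := key g2 hg2 h2
  have hc20 : c2 ≠ 0 := by
    rintro rfl
    rw [map_zero, zero_mul, zero_mul] at hc2
    exact hg2 hc2
  refine ⟨c1 / c2, ?_⟩
  have hc20' : algebraMap Λ F c2 ≠ 0 := (_root_.map_ne_zero _).2 hc20
  rw [hc1, hc2, map_div₀]
  field_simp

end

section

variable {B K Λ F : Type} [Field B] [Field K] [Field Λ] [Field F] [Algebra B K] [Algebra B Λ]
  [Algebra Λ F] [Algebra K F] [Algebra B F] [IsScalarTower B Λ F] [IsScalarTower B K F]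
  [CharZero B] [Algebra.IsAlgebraic B Λ] [IsAlgClosed Λ]

/-- The regular differentials of the geometric generic fibre are proportional if this is true of
the traces. -/
theorem one_fib (hF : IsFF Λ F)
    (hcl : ∀ x : K, IsIntegral B x → ∃ y : B, algebraMap B K y = x)
    (hgenF : IntermediateField.adjoin Λ (Set.range (algebraMap K F)) = ⊤)
    (E : IntermediateField B K) [FiniteDimensional E K] (FE : IntermediateField Λ F)
    (hFE : FE = IntermediateField.adjoin Λ (algebraMap K F '' E)) {ξ : K} (hξE : ξ ∈ E)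
    (hξ : Transcendental Λ (algebraMap K F ξ)) {D : Derivation Λ F F}
    (hD : D (algebraMap K F ξ) = 1) {J : Type} [Finite J] (g : J → K)
    (hspan : ∀ f : F, f ≠ 0 → (∀ Q : Place Λ F, vo Q D ≤ Q.ord f) →
      f ∈ Submodule.span Λ (Set.range fun j => algebraMap K F (g j)))
    {h0 : E} (htr : ∀ j, ∃ b : B, Algebra.trace E K (g j) = b • h0)
    (hrat : ¬ ∃ s : FE, IntermediateField.adjoin Λ {s} = ⊤) : IsFF Λ FE ∧ Uniq Λ FE := by
  classical
  have hΛ0 : CharZero Λ := charZero_of_injective_algebraMap (algebraMap B Λ).injective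
  obtain ⟨hfin, htrace⟩ := trace_fib (F := F) hcl hgenF E FE hFE
  have hess : Algebra.EssFiniteType Λ F := hF.ess
  have hessE : Algebra.EssFiniteType Λ FE := Pool.Agent.TH466.QG.ess_below (K := F)
  have htrE : Algebra.trdeg Λ FE = 1 := by
    have h1 := trdeg_add_eq Λ FE (A := F)
    have h2 : Algebra.trdeg FE F = 0 := trdeg_eq_zero
    rw [h2, add_zero, hF.trdeg] at h1
    exact h1
  have hFFE : IsFF Λ FE := ⟨hessE, htrE⟩
  have hξF : algebraMap K F ξ ∈ FE := by
    rw [hFE]
    exact IntermediateField.subset_adjoin _ _ ⟨ξ, hξE, rfl⟩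
  have hξ' : Transcendental Λ (⟨algebraMap K F ξ, hξF⟩ : FE) := by
    intro h
    apply hξ
    exact (isAlgebraic_algebraMap_iff (algebraMap FE F).injective).2 h
  have hd0 := der_ne (k := Λ) (K := FE)
  have hd1 := der_ne_zero hd0 hξ'
  obtain ⟨DE, hDE⟩ : ∃ DE : Derivation Λ FE FE,
      DE = (der Λ FE ⟨algebraMap K F ξ, hξF⟩)⁻¹ • der Λ FE := ⟨_, rfl⟩
  have hDE1 : DE ⟨algebraMap K F ξ, hξF⟩ = 1 := by
    rw [hDE, Derivation.smul_apply, smul_eq_mul, inv_mul_cancel₀ hd1]
  have hDE0 : DE ≠ 0 := by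
    intro h
    rw [h] at hDE1
    exact zero_ne_one hDE1
  have hD0 : D ≠ 0 := by
    intro h
    rw [h] at hD
    exact zero_ne_one hD
  obtain ⟨D2, hD2, hext2⟩ := exists_ext (E := F) DE hDE0
  have hDD : ∀ z : F, D2 z = D z := by
    refine der_ext hξ ?_
    have h1 := hext2 ⟨algebraMap K F ξ, hξF⟩
    rw [hDE1, map_one] at h1
    rw [hD]
    exact h1
  have hext : ∀ z : FE, D (algebraMap FE F z) = algebraMap FE F (DE z) := fun z => by
    rw [← hDD, hext2]
  have hh0F : algebraMap K F (h0 : K) ∈ FE := by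
    rw [hFE]
    exact IntermediateField.subset_adjoin _ _ ⟨h0, h0.2, rfl⟩
  refine ⟨hFFE, uniq_of hDE0 hrat (f0 := ⟨algebraMap K F (h0 : K), hh0F⟩) fun f hf0 hf => ?_⟩
  have hf0' : algebraMap FE F f ≠ 0 := (_root_.map_ne_zero _).2 hf0
  have hfreg : ∀ Q : Place Λ F, vo Q D ≤ Q.ord (algebraMap FE F f) := by
    intro Q
    obtain ⟨q, e, hq⟩ := Pool.Agent.Y172.exists_below (K := FE) Q
    have h1 := vo_over hq hDE0 hD0 hext
    have h2 := hf q
    have h3 : Q.ord (algebraMap FE F f) = e * q.ord f := hq.2 f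
    have h4 : (1 : ℤ) ≤ e := by exact_mod_cast hq.1
    rw [h1, h3]
    have h5 := mul_le_mul_of_nonneg_left h2 (by omega : (0 : ℤ) ≤ e)
    linarith
  have hmem := hspan _ hf0' hfreg
  have hsub : Submodule.span Λ (Set.range fun j => algebraMap K F (g j)) ≤
      (Submodule.span Λ {(⟨algebraMap K F (h0 : K), hh0F⟩ : FE)}).comap
        ((Algebra.trace FE F).restrictScalars Λ) := by
    rw [Submodule.span_le]
    rintro _ ⟨j, rfl⟩
    obtain ⟨b, hb⟩ := htr j
    refine Submodule.mem_span_singleton.2 ⟨algebraMap B Λ b, ?_⟩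
    apply Subtype.ext
    have h1 := htrace (g j)
    rw [hb] at h1
    refine Eq.trans ?_ h1.symm
    change algebraMap B Λ b • algebraMap K F (h0 : K) = algebraMap K F (b • (h0 : K))
    rw [Algebra.smul_def, Algebra.smul_def, map_mul, ← IsScalarTower.algebraMap_apply B Λ F,
      ← IsScalarTower.algebraMap_apply B K F]
  have h1 := hsub hmem
  rw [Submodule.mem_comap, Submodule.mem_span_singleton] at h1
  obtain ⟨c, hc⟩ := h1
  have hc' : c • (⟨algebraMap K F (h0 : K), hh0F⟩ : FE) =
      (Module.finrank FE F : FE) * f := by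
    rw [hc]
    change Algebra.trace FE F (algebraMap FE F f) = _
    rw [Algebra.trace_algebraMap, nsmul_eq_mul]
  have h3 : 0 < Module.finrank FE F := Module.finrank_pos
  have h4 : (Module.finrank FE F : Λ) ≠ 0 := by exact_mod_cast h3.ne'
  have h5 : (Module.finrank FE F : FE) = algebraMap Λ FE (Module.finrank FE F : Λ) := by
    rw [map_natCast]
  have h6 : algebraMap Λ FE (Module.finrank FE F : Λ) ≠ 0 := (_root_.map_ne_zero _).2 h4
  refine ⟨c / (Module.finrank FE F : Λ), ?_⟩
  rw [h5, Algebra.smul_def] at hc'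
  rw [map_div₀, div_mul_eq_mul_div, hc', mul_div_cancel_left₀ _ h6]

end

theorem ess_equiv {k A A' : Type} [Field k] [Field A] [Field A'] [Algebra k A] [Algebra k A']
    (e : A ≃ₐ[k] A') (h : Algebra.EssFiniteType k A) : Algebra.EssFiniteType k A' := by
  let iA : Algebra A A' := e.toRingEquiv.toRingHom.toAlgebra
  have t1 : IsScalarTower k A A' := IsScalarTower.of_algebraMap_eq fun c => (e.commutes c).symm
  have f1 : Module.Finite A A' :=
    Module.Finite.of_surjective (Algebra.linearMap A A') e.surjective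
  exact Algebra.EssFiniteType.comp k A A'

section

variable {B R Λ G : Type} [Field B] [Field R] [Field Λ] [Field G]
  [Algebra ℂ B] [Algebra ℂ R] [Algebra B R]
  [IsScalarTower ℂ B R] [Algebra B Λ] [Algebra Λ G] [Algebra R G] [Algebra B G]
  [IsScalarTower B Λ G] [IsScalarTower B R G] [Algebra ℂ Λ] [Algebra ℂ G] [IsScalarTower ℂ Λ G]
  [IsScalarTower ℂ R G] [IsScalarTower ℂ B Λ] [IsAlgClosed Λ] [CharZero Λ]

/-- Base and fibre cannot both be of general type. -/
theorem no_fib (hess : Algebra.EssFiniteType ℂ R) [Algebra.IsAlgebraic B Λ]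
    [Algebra.IsAlgebraic R G] [hFF : IsFF Λ G] (hU : Uniq Λ G) {n : ℕ}
    (hB : Algebra.trdeg ℂ B = n) (hR : Algebra.trdeg ℂ R = (n + 1 : ℕ))
    (hcl : ∀ x : R, IsAlgebraic B x → ∃ y : B, algebraMap B R y = x)
    {L : Type} [Field L] [Algebra ℂ L] [Algebra L R] [IsScalarTower ℂ L R]
    [FiniteDimensional L R] (E : IntermediateField ℂ L) [hessE : Algebra.EssFiniteType ℂ E]
    {d f' : ℕ} (hd : Algebra.trdeg ℂ E = d) (hf' : Algebra.trdeg E L = f')
    (h1 : KodTr ℂ E d d) (h2 : KodTr E L f' f') : False := by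
  classical
  have hBR : Algebra.trdeg B R = (1 : ℕ) := Pool.Agent.Y174.trdeg_LK (r := 1) hB hR
  have hnot : ¬ ∀ x : R, IsAlgebraic B x := by
    intro h
    have h3 : Algebra.IsAlgebraic B R := ⟨h⟩
    have h4 : Algebra.trdeg B R = 0 := trdeg_eq_zero
    rw [h4] at hBR
    have h5 : (0 : ℕ) = 1 := by exact_mod_cast hBR
    exact zero_ne_one h5
  apply hnot
  -- the base
  have hE0 : ∀ e : E, IsAlgebraic B (algebraMap L R (e : L)) := by
    intro e
    let φ : L →ₐ[ℂ] R := IsScalarTower.toAlgHom ℂ L R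
    have e1 : E ≃ₐ[ℂ] E.map φ := IntermediateField.equivMap E φ
    have h3 : KodTr ℂ (E.map φ) d d := Pool.Agent.Y174.kod_equiv e1 hessE hd h1
    have h4 : Algebra.trdeg ℂ (E.map φ) = d := by
      rw [← e1.trdeg_eq]
      exact hd
    have h5 : Algebra.EssFiniteType ℂ (E.map φ) := ess_equiv e1 hessE
    exact sub_base (B := B) (Λ := Λ) (F := G) hess hU hB hR (E.map φ) h5 h4 h3
      (algebraMap L R (e : L)) ⟨e, e.2, rfl⟩
  choose j0 hj0 using fun e : E => hcl _ (hE0 e)
  have hinj : Function.Injective (algebraMap B R) := (algebraMap B R).injective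
  let j : E →+* B :=
    { toFun := j0
      map_one' := hinj (by rw [hj0, map_one]; simp)
      map_mul' := fun a b => hinj (by rw [hj0, map_mul, hj0, hj0, ← map_mul]; rfl)
      map_zero' := hinj (by rw [hj0, map_zero]; simp)
      map_add' := fun a b => hinj (by rw [hj0, map_add, hj0, hj0, ← map_add]; rfl) }
  have hj : ∀ e : E, algebraMap B R (j e) = algebraMap L R (e : L) := hj0
  let iB : Algebra E B := j.toAlgebra
  let iΛ : Algebra E Λ := ((algebraMap B Λ).comp j).toAlgebra
  let iG : Algebra E G := ((algebraMap B G).comp j).toAlgebra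
  have t1 : IsScalarTower E B R := IsScalarTower.of_algebraMap_eq fun e => by
    change algebraMap L R (e : L) = algebraMap B R (j e)
    rw [hj]
  have t2 : IsScalarTower E B Λ := IsScalarTower.of_algebraMap_eq fun _ => rfl
  have t3 : IsScalarTower E Λ G := IsScalarTower.of_algebraMap_eq fun e => by
    change algebraMap B G (j e) = algebraMap Λ G (algebraMap B Λ (j e))
    rw [← IsScalarTower.algebraMap_apply B Λ G]
  have t4 : IsScalarTower E R G := IsScalarTower.of_algebraMap_eq fun e => by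
    change algebraMap B G (j e) = algebraMap R G (algebraMap L R (e : L))
    rw [← hj, ← IsScalarTower.algebraMap_apply B R G]
  have t5 : IsScalarTower ℂ E B := IsScalarTower.of_algebraMap_eq fun c => by
    apply hinj
    change algebraMap B R (algebraMap ℂ B c) = algebraMap B R (j (algebraMap ℂ E c))
    rw [hj, ← IsScalarTower.algebraMap_apply ℂ B R]
    change _ = algebraMap L R (algebraMap ℂ L c)
    rw [← IsScalarTower.algebraMap_apply ℂ L R]
  have t6 : IsScalarTower ℂ E R := IsScalarTower.of_algebraMap_eq fun c => by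
    change _ = algebraMap L R (algebraMap ℂ L c)
    rw [← IsScalarTower.algebraMap_apply ℂ L R]
  have t7 : IsScalarTower E L R := inferInstance
  have hE0' : CharZero E := charZero_of_injective_algebraMap (algebraMap ℂ E).injective
  have hessR : Algebra.EssFiniteType E R := Algebra.EssFiniteType.of_comp ℂ E R
  have hessCL : Algebra.EssFiniteType ℂ L := Pool.Agent.TH466.QG.ess_below (K := R)
  have hessL : Algebra.EssFiniteType E L := Algebra.EssFiniteType.of_comp ℂ E L
  -- the transcendence degrees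
  have hfin : ∀ {X : Type} [Field X] [Algebra ℂ X] [Algebra E X] [IsScalarTower ℂ E X] {m : ℕ},
      Algebra.trdeg ℂ X = m → ∃ b : ℕ, d + b = m ∧ Algebra.trdeg E X = b := by
    intro X _ _ _ _ m hX
    have h3 := trdeg_add_eq ℂ E (A := X)
    rw [hd, hX] at h3
    have h4 : Algebra.trdeg E X < Cardinal.aleph0 := by
      refine lt_of_le_of_lt ?_ (Cardinal.natCast_lt_aleph0 (n := m))
      rw [← h3]
      exact self_le_add_left _ _
    obtain ⟨b, hb⟩ := Cardinal.lt_aleph0.1 h4
    rw [hb] at h3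
    exact ⟨b, by exact_mod_cast h3, hb⟩
  obtain ⟨b, hb, hEB⟩ := hfin (X := B) hB
  obtain ⟨b', hb', hER⟩ := hfin (X := R) hR
  have hbb : b' = b + 1 := by omega
  rw [hbb] at hER
  have hfR : f' = b + 1 := by
    have h3 := trdeg_add_eq E L (A := R)
    have h4 : Algebra.trdeg L R = 0 := trdeg_eq_zero
    rw [h4, add_zero, hf', hER] at h3
    exact_mod_cast h3
  have h3 : KodTr E R f' f' := Pool.Agent.Y174.kod_up hessL hf' h2
  have hERf : Algebra.trdeg E R = f' := by rw [hER, hfR]
  have e2 : R ≃ₐ[E] (⊤ : IntermediateField E R) := IntermediateField.topEquiv.symm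
  have h4 : KodTr E (⊤ : IntermediateField E R) f' f' :=
    Pool.Agent.Y174.kod_equiv e2 hessR hERf h3
  have h5 : Algebra.trdeg E (⊤ : IntermediateField E R) = f' := by
    rw [← e2.trdeg_eq]
    exact hERf
  have h6 : Algebra.EssFiniteType E (⊤ : IntermediateField E R) := ess_equiv e2 hessR
  intro x
  exact sub_base (k := E) (B := B) (Λ := Λ) (F := G) hessR hU hEB hER
    (⊤ : IntermediateField E R) h6 h5 h4 x trivial

end

end Pool.Agent.K4H62.IT
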