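import Pool.Agent.R882.GLc
import Pool.Agent.R882.UA
import Pool.Agent.Y174.Multi
import Pool.Agent.Y174.R1
import Pool.Agent.K4H62.IT.Curve

/-!
Forms on a quotient of a variety which is fibred by curves with one regular differential.
-/

set_option autoImplicit false
set_option linter.overlappingInstances false
set_option linter.unusedSectionVars false
set_option maxHeartbeats 4000000
set_option synthInstance.maxHeartbeats 400000

open IntermediateField Module FF Pool.Agent.W619.PQ Pool.Agent.W603.LV Pool.Agent.W619.TW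
  Pool.Agent.W619.Y Pool.Agent.Y174 Pool.Agent.W824.PG

namespace Pool.Agent.K4H62.IT

section

variable {k k' K : Type} [Field k] [CharZero k] [Field k'] [Field K] [Algebra k k']
  [Algebra k' K] [Algebra k K] [IsScalarTower k k' K]

/-- Forms over the field which is generated by a part of the coordinates. -/
theorem pairSec_rel {c r N : ℕ} {z : Fin c → k'} (hz : AlgebraicIndependent k z)
    {y : Fin (r + 1) → K} {a : K}
    (hgood : ∀ w : Place k K, IsDivisorial w (c + (r + 1)) → YGood (r + 1) N w y a) :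
    PairSec k' K (r + 1) (fun _ => (0 : ℝ)) {1} N 0
      (fun D => a * (Matrix.of fun j i => D j (y i)).det ^ N) := by
  refine ⟨?_, ?_⟩
  · intro A D
    have e : (Matrix.of fun a b => (∑ j, A a j • D j) (y b)) =
        A * Matrix.of fun a b => D a (y b) := by
      ext a b
      rw [Matrix.of_apply, Matrix.mul_apply, Pool.Agent.W721.PG.EFF2.der_sum]
      rfl
    show a * (Matrix.of fun a b => (∑ j, A a j • D j) (y b)).det ^ N = _
    rw [e, Matrix.det_mul, mul_pow]
    ring
  · intro w hw D hD
    obtain ⟨y', hy'⟩ : ∃ y' : Fin r → K, ResInd w y' := hw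
    have hdiv : IsDivisorial (resPl k w) (c + (r + 1)) := ⟨_, hy'.append hz⟩
    have h1 := Pool.Agent.R882.UA.good_reg (hgood _ hdiv)
      (F := fun j => (D j).restrictScalars k) (fun j f hf => hD j f hf)
    rcases h1 with h | h
    · exact Or.inl h
    · refine Or.inr ⟨1, Finset.mem_singleton_self _, one_ne_zero, ?_⟩
      have h2 : (0 : ℝ) ≤ (((resPl k w).ord (a * (Matrix.of fun j i =>
        ((D j).restrictScalars k) (y i)).det ^ N) : ℤ) : ℝ) := by exact_mod_cast h
      simp only [Nat.cast_zero, zero_mul, mul_zero, sub_zero]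
      exact h2

end

section

variable {k B K Λ F : Type} [Field k] [CharZero k] [Field B] [Field K] [Field Λ] [Field F]
  [Algebra k B] [Algebra k K] [Algebra B K]
  [IsScalarTower k B K] [Algebra B Λ] [Algebra Λ F] [Algebra K F] [Algebra B F]
  [IsScalarTower B Λ F] [IsScalarTower B K F] [Algebra k Λ] [Algebra k F] [IsScalarTower k Λ F]
  [IsScalarTower k K F] [IsScalarTower k B Λ] [IsAlgClosed Λ]

/-- Restrictions of regular pluricanonical forms are regular. -/
theorem reg_resN (hess : Algebra.EssFiniteType k K) {b : ℕ}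
    (hK : Algebra.trdeg k K = (b + 1 : ℕ))
    [Algebra.IsAlgebraic K F] (hFF : IsFF Λ F) {tB : Fin b → B} (htB : IsTranscendenceBasis k tB)
    {ξ : K} (hxB : IsTranscendenceBasis B (fun _ : Fin (0 + 1) => ξ))
    {Ef : Fin (b + 1) → Derivation k K K}
    (hEd : ∀ i j, Ef i (Fin.append (algebraMap B K ∘ tB) (fun _ : Fin (0 + 1) => ξ) j) =
      if i = j then 1 else 0) {D : Derivation Λ F F} (hD1 : D (algebraMap K F ξ) = 1) {N : ℕ}
    {ω : (Fin (b + 1) → Derivation k K K) → K}
    (hsec : PairSec k K (b + (0 + 1)) (fun _ => (0 : ℝ)) {1} N 0 ω) (Q : Place Λ F) :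
    algebraMap K F (ω Ef) = 0 ∨ (N : ℤ) * vo Q D ≤ Q.ord (algebraMap K F (ω Ef)) := by
  classical
  have hB0 : CharZero B := charZero_of_injective_algebraMap (algebraMap k B).injective
  have hΛ0 : CharZero Λ := charZero_of_injective_algebraMap (algebraMap B Λ).injective
  have hDne : D ≠ 0 := by
    intro h
    rw [h] at hD1
    exact zero_ne_one hD1
  by_cases h0 : algebraMap K F (ω Ef) = 0
  · exact Or.inl h0
  right
  have h1 := Pool.Agent.Y174.res_sec (Λ := Λ) (F := F) hess hK htB hxB
    (E := Ef) hEd Pool.Agent.Y174.isPullFib_zero hsec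
  obtain ⟨s, hs0, hs⟩ := Q.surj
  -- the frame at the place
  obtain ⟨c, hc⟩ : ∃ c : F, c = s ^ (-(vo Q D)) := ⟨_, rfl⟩
  have hc0 : c ≠ 0 := by
    rw [hc]
    exact zpow_ne_zero _ hs0
  have hcord : Q.ord c = -(vo Q D) := by
    rw [hc, Q.ord_zpow, hs, mul_one]
  have hpres : ∀ l : Fin (0 + 1), ∀ f, Q.Reg f → Q.Reg ((fun _ : Fin (0 + 1) => c • D) l f) := by
    intro l f hf
    change Q.Reg (c * D f)
    obtain ⟨g, hg, hg'⟩ := der_mul Q hs hDne (f := f) hf
    rw [hg', ← mul_assoc]
    refine Q.reg_mul (Or.inr ?_) hg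
    have hDs : D s ≠ 0 := der_pi_ne_zero hDne Q hs
    rw [Q.ord_mul hc0 hDs, hcord, vo_eq Q hs hDne]
    simp
  have hdiv : IsDivisorial Q (0 + 1) := by
    have : IsEmpty (Fin (0 + 1 - 1)) := inferInstanceAs (IsEmpty (Fin 0))
    refine ⟨Fin.elim0, fun p hp => ?_⟩
    have h3 : p = MvPolynomial.C (MvPolynomial.coeff 0 p) :=
      MvPolynomial.eq_C_of_isEmpty p
    have h4 : MvPolynomial.coeff 0 p ≠ 0 := by
      intro h5
      rw [h5, map_zero] at h3
      exact hp h3
    rw [h3, MvPolynomial.aeval_C]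
    exact ⟨(_root_.map_ne_zero _).2 h4, Q.ord_const h4⟩
  have h2 := h1.2 Q hdiv (fun _ => c • D) hpres
  have h5 : (Matrix.of fun (_ _ : Fin (0 + 1)) => (c • D) (algebraMap K F ξ)).det = c := by
    have : Unique (Fin (0 + 1)) := inferInstanceAs (Unique (Fin 1))
    rw [Matrix.det_unique, Matrix.of_apply]
    change c * D (algebraMap K F ξ) = c
    rw [hD1, mul_one]
  beta_reduce at h2
  rw [h5] at h2
  have hcN : c ^ N ≠ 0 := pow_ne_zero _ hc0
  rcases h2 with h2 | ⟨s', hs', hs'0, h2⟩
  · exact absurd h2 (mul_ne_zero hcN h0)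
  · rw [Q.ord_mul hcN h0, Q.ord_pow, hcord] at h2
    simp only [Nat.cast_zero, zero_mul, mul_zero, sub_zero] at h2
    have h3 : (0 : ℤ) ≤ (N : ℤ) * -(vo Q D) + Q.ord (algebraMap K F (ω Ef)) := by
      exact_mod_cast h2
    linarith

end

/-- The regular pluricanonical forms on the curve are unique up to constants. -/
def Uniq (Λ F : Type) [Field Λ] [Field F] [Algebra Λ F] : Prop :=
  ∀ (N : ℕ) (D : Derivation Λ F F), D ≠ 0 → ∀ g1 g2 : F, g1 ≠ 0 → g2 ≠ 0 →
    (∀ P : Place Λ F, (N : ℤ) * vo P D ≤ P.ord g1) →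
    (∀ P : Place Λ F, (N : ℤ) * vo P D ≤ P.ord g2) → ∃ c : Λ, g1 = algebraMap Λ F c * g2

section

variable {k k' B K Λ F : Type} [Field k] [CharZero k] [Field k'] [Field B] [Field K] [Field Λ]
  [Field F] [Algebra k k'] [Algebra k' B] [Algebra k' K] [Algebra k K] [IsScalarTower k k' K]
  [Algebra B K]
  [IsScalarTower k' B K] [Algebra B Λ] [Algebra Λ F] [Algebra K F] [Algebra B F]
  [IsScalarTower B Λ F] [IsScalarTower B K F] [Algebra k' Λ] [Algebra k' F]
  [IsScalarTower k' Λ F]
  [IsScalarTower k' K F] [IsScalarTower k' B Λ] [IsAlgClosed Λ] [CharZero Λ]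

/-- Ratios of forms are constant along the fibres. -/
theorem ratio_alg (hess : Algebra.EssFiniteType k' K) [Algebra.IsAlgebraic B Λ]
    [Algebra.IsAlgebraic K F] [hFF : IsFF Λ F] (hU : Uniq Λ F) {c r N : ℕ} {z : Fin c → k'}
    (hz : AlgebraicIndependent k z) {tB : Fin r → B} (htB : IsTranscendenceBasis k' tB)
    {ξ : K} (hxB : IsTranscendenceBasis B (fun _ : Fin (0 + 1) => ξ))
    {y : Fin (r + 1) → K} (hy : IsTranscendenceBasis k' y)
    (hK : Algebra.trdeg k' K = (r + 1 : ℕ)) {a1 a2 : K} (ha1 : a1 ≠ 0) (ha2 : a2 ≠ 0)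
    (hg1 : ∀ w : Place k K, IsDivisorial w (c + (r + 1)) → YGood (r + 1) N w y a1)
    (hg2 : ∀ w : Place k K, IsDivisorial w (c + (r + 1)) → YGood (r + 1) N w y a2) :
    IsAlgebraic B (a1 / a2) := by
  classical
  have hk'0 : CharZero k' := charZero_of_injective_algebraMap (algebraMap k k').injective
  have hZ := Pool.Agent.Y174.basis_append htB hxB
  obtain ⟨Ef, hEf⟩ := Pool.Agent.W636.PG.exists_duals k' K (r + 1) _ hZ
  obtain ⟨Ey, hEy⟩ := Pool.Agent.W636.PG.exists_duals k' K (r + 1) _ hy
  -- the determinant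
  have hJ : (Matrix.of fun j i => Ef j (y i)).det ≠ 0 := by
    have h1 := Pool.Agent.W636.PG.form_eq k' K (r + 1) 1 y hy Ey hEy
      (fun D => (Matrix.of fun j i => D j (Fin.append (algebraMap B K ∘ tB)
        (fun _ : Fin (0 + 1) => ξ) i)).det) (fun A D => by
        have e : (Matrix.of fun a b => (∑ j, A a j • D j) (Fin.append (algebraMap B K ∘ tB)
            (fun _ : Fin (0 + 1) => ξ) b)) =
            A * Matrix.of fun a b => D a (Fin.append (algebraMap B K ∘ tB)
            (fun _ : Fin (0 + 1) => ξ) b) := by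
          ext a b
          rw [Matrix.of_apply, Matrix.mul_apply, Pool.Agent.W721.PG.EFF2.der_sum]
          rfl
        show (Matrix.of fun a b => (∑ j, A a j • D j) (Fin.append (algebraMap B K ∘ tB)
            (fun _ : Fin (0 + 1) => ξ) b)).det = _
        rw [e, Matrix.det_mul, pow_one]) Ef
    have h2 : (Matrix.of fun j i => Ef j (Fin.append (algebraMap B K ∘ tB)
        (fun _ : Fin (0 + 1) => ξ) i)).det = 1 := by
      have h3 : (Matrix.of fun j i => Ef j (Fin.append (algebraMap B K ∘ tB)
        (fun _ : Fin (0 + 1) => ξ) i)) = 1 := by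
        ext a b
        rw [Matrix.of_apply, Matrix.one_apply]
        exact hEf a b
      rw [h3, Matrix.det_one]
    intro h0
    beta_reduce at h1
    rw [h2, h0, pow_one, zero_mul] at h1
    exact one_ne_zero h1
  have hξ : ¬ IsAlgebraic B ξ := by
    have h1 := hxB.1
    have : Unique (Fin (0 + 1)) := inferInstanceAs (Unique (Fin 1))
    rw [algebraicIndependent_unique_type_iff] at h1
    exact h1
  have hξF : Transcendental Λ (algebraMap K F ξ) := by
    intro h
    apply hξ
    have h1 : IsAlgebraic B (algebraMap K F ξ) := h.restrictScalars B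
    exact (isAlgebraic_algebraMap_iff (R := B) (algebraMap K F).injective).1 h1
  have hd0 := der_ne (k := Λ) (K := F)
  have hd1 := der_ne_zero hd0 hξF
  obtain ⟨D, hDd⟩ : ∃ D : Derivation Λ F F, D = (der Λ F (algebraMap K F ξ))⁻¹ • der Λ F :=
    ⟨_, rfl⟩
  have hD1 : D (algebraMap K F ξ) = 1 := by
    rw [hDd, Derivation.smul_apply, smul_eq_mul, inv_mul_cancel₀ hd1]
  have hDne : D ≠ 0 := by
    intro h
    rw [h] at hD1
    exact zero_ne_one hD1
  have hr : ∀ a : K, a ≠ 0 →
      (∀ w : Place k K, IsDivisorial w (c + (r + 1)) → YGood (r + 1) N w y a) →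
      ∀ Q : Place Λ F, (N : ℤ) * vo Q D ≤
        Q.ord (algebraMap K F (a * (Matrix.of fun j i => Ef j (y i)).det ^ N)) := by
    intro a ha hg Q
    have h1 := pairSec_rel hz hg
    rcases reg_resN (Λ := Λ) (F := F) hess hK hFF htB hxB hEf hD1 h1 Q with h | h
    · exfalso
      have h2 : a * (Matrix.of fun j i => Ef j (y i)).det ^ N ≠ 0 :=
        mul_ne_zero ha (pow_ne_zero _ hJ)
      exact h2 ((map_eq_zero _).1 h)
    · exact h
  have hne : ∀ a : K, a ≠ 0 →
      algebraMap K F (a * (Matrix.of fun j i => Ef j (y i)).det ^ N) ≠ 0 := fun a ha =>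
    (_root_.map_ne_zero _).2 (mul_ne_zero ha (pow_ne_zero _ hJ))
  obtain ⟨lam, hlam⟩ := hU N D hDne _ _ (hne a1 ha1) (hne a2 ha2) (hr a1 ha1 hg1) (hr a2 ha2 hg2)
  have hratio : algebraMap K F (a1 / a2) = algebraMap Λ F lam := by
    have h1 := hne 1 one_ne_zero
    rw [one_mul] at h1
    have h2 : algebraMap K F a2 ≠ 0 := (_root_.map_ne_zero _).2 ha2
    rw [map_mul, map_mul, ← mul_assoc] at hlam
    rw [map_div₀, div_eq_iff h2]
    exact mul_right_cancel₀ h1 hlam
  have h3 : IsAlgebraic B (algebraMap K F (a1 / a2)) := by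
    rw [hratio]
    exact (Algebra.IsAlgebraic.isAlgebraic lam).algebraMap
  exact (isAlgebraic_algebraMap_iff (R := B) (algebraMap K F).injective).1 h3

end

section

variable {k B K Λ F : Type} [Field k] [CharZero k] [Field B] [Field K] [Field Λ] [Field F]
  [Algebra k B] [Algebra k K] [Algebra B K]
  [IsScalarTower k B K] [Algebra B Λ] [Algebra Λ F] [Algebra K F] [Algebra B F]
  [IsScalarTower B Λ F] [IsScalarTower B K F] [Algebra k Λ] [Algebra k F] [IsScalarTower k Λ F]
  [IsScalarTower k K F] [IsScalarTower k B Λ] [IsAlgClosed Λ] [CharZero Λ]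

/-- The transcendence basis of a subfield and a part of the base. -/
theorem exists_mixed {b d : ℕ} (hB : Algebra.trdeg k B = b)
    (hK : Algebra.trdeg k K = (b + 1 : ℕ)) {y : Fin d → K} (hy : AlgebraicIndependent k y)
    {i0 : Fin d} (h0 : ¬ IsAlgebraic B (y i0)) :
    ∃ (c : ℕ) (z : Fin c → B), c + d = b + 1 ∧
      IsTranscendenceBasis k (Sum.elim y (algebraMap B K ∘ z)) := by
  classical
  obtain ⟨t, ht⟩ := Pool.Agent.W636.PG.exists_basis k B b hB
  have hBK : Algebra.trdeg B K = (1 : ℕ) := Pool.Agent.Y174.trdeg_LK (r := 1) hB hK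
  -- the basis with one element of `y`
  have hyB : IsTranscendenceBasis B (fun _ : Fin 1 => y i0) := by
    have h1 : AlgebraicIndependent B (fun _ : Fin 1 => y i0) := by
      rw [algebraicIndependent_unique_type_iff]
      exact h0
    refine h1.isTranscendenceBasis_of_lift_trdeg_le_of_finite ?_
    rw [hBK]
    simp
  have hbas := ht.sumElim_comp hyB
  have hsp : Algebra.IsAlgebraic (Algebra.adjoin k
      (Set.range y ∪ Set.range (algebraMap B K ∘ t))) K := by
    have h1 := hbas.isAlgebraic
    have h2 : Algebra.adjoin k (Set.range (Sum.elim (fun _ : Fin 1 => y i0)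
        (algebraMap B K ∘ t))) ≤ Algebra.adjoin k
        (Set.range y ∪ Set.range (algebraMap B K ∘ t)) := by
      apply Algebra.adjoin_mono
      rintro _ ⟨i, rfl⟩
      rcases i with i | i
      · exact Or.inl ⟨i0, rfl⟩
      · exact Or.inr ⟨i, rfl⟩
    refine ⟨fun x => ?_⟩
    obtain ⟨p, hp0, hp⟩ := h1.isAlgebraic x
    refine ⟨p.map (Subalgebra.inclusion h2).toRingHom, ?_, ?_⟩
    · exact (Polynomial.map_ne_zero_iff (Subalgebra.inclusion_injective h2)).2 hp0
    · rw [Polynomial.aeval_def, Polynomial.eval₂_map]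
      exact hp
  have hyr : AlgebraicIndepOn k id (Set.range y) := hy.to_subtype_range
  obtain ⟨u, hu1, hu2, hu⟩ := exists_isTranscendenceBasis_between (R := k) (Set.range y)
    (Set.range y ∪ Set.range (algebraMap B K ∘ t)) Set.subset_union_left hyr
  have hufin : u.Finite := by
    refine Set.Finite.subset ?_ hu2
    exact (Set.finite_range _).union (Set.finite_range _)
  have := hufin.fintype
  -- the complement
  obtain ⟨v, hv⟩ : ∃ v : Set K, v = u \ Set.range y := ⟨_, rfl⟩
  have hvfin : v.Finite := by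
    rw [hv]
    exact hufin.subset Set.diff_subset
  have := hvfin.fintype
  obtain ⟨e⟩ : Nonempty (Fin (Fintype.card v) ≃ v) := ⟨(Fintype.equivFin v).symm⟩
  have hvB : ∀ i, ∃ s : B, algebraMap B K s = (e i : K) := by
    intro i
    have h1 : (e i : K) ∈ u \ Set.range y := by
      rw [← hv]
      exact (e i).2
    rcases hu2 h1.1 with h2 | ⟨j, hj⟩
    · exact absurd h2 h1.2
    · exact ⟨t j, hj⟩
  choose z hz using hvB
  have hzf : algebraMap B K ∘ z = fun i => (e i : K) := funext hz
  -- the bijection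
  let f : Fin d ⊕ Fin (Fintype.card v) → u := fun i => ⟨Sum.elim y (algebraMap B K ∘ z) i, by
    rcases i with i | i
    · exact hu1 ⟨i, rfl⟩
    · change (algebraMap B K ∘ z) i ∈ u
      rw [hzf]
      have h1 : (e i : K) ∈ u \ Set.range y := by
        rw [← hv]
        exact (e i).2
      exact h1.1⟩
  have hf : Function.Bijective f := by
    constructor
    · intro i j hij
      have h1 : Sum.elim y (algebraMap B K ∘ z) i = Sum.elim y (algebraMap B K ∘ z) j :=
        congrArg Subtype.val hij
      have hnot : ∀ (i : Fin d) (j : Fin (Fintype.card v)), y i ≠ (algebraMap B K ∘ z) j := by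
        intro i j h
        have h2 : (e j : K) ∈ u \ Set.range y := by
          rw [← hv]
          exact (e j).2
        rw [hzf] at h
        exact h2.2 ⟨i, h⟩
      rcases i with i | i
      · rcases j with j | j
        · exact congrArg Sum.inl (hy.injective h1)
        · exact absurd h1 (hnot i j)
      · rcases j with j | j
        · exact absurd h1.symm (hnot j i)
        · have h2 : (e i : K) = (e j : K) := by
            have h3 : (algebraMap B K ∘ z) i = (algebraMap B K ∘ z) j := h1
            rw [hzf] at h3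
            exact h3
          exact congrArg Sum.inr (e.injective (Subtype.ext h2))
    · rintro ⟨x, hx⟩
      by_cases hxy : x ∈ Set.range y
      · obtain ⟨i, rfl⟩ := hxy
        exact ⟨Sum.inl i, rfl⟩
      · have hxv : x ∈ v := by
          rw [hv]
          exact ⟨hx, hxy⟩
        refine ⟨Sum.inr (e.symm ⟨x, hxv⟩), ?_⟩
        apply Subtype.ext
        change (algebraMap B K ∘ z) (e.symm ⟨x, hxv⟩) = x
        rw [hzf]
        change ((e (e.symm ⟨x, hxv⟩) : v) : K) = x
        rw [Equiv.apply_symm_apply]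
  have hbas2 : IsTranscendenceBasis k (Sum.elim y (algebraMap B K ∘ z)) :=
    hu.comp_equiv (Equiv.ofBijective f hf)
  refine ⟨Fintype.card v, z, ?_, hbas2⟩
  have h1 := hbas2.lift_cardinalMk_eq_trdeg
  rw [hK] at h1
  simp only [Cardinal.mk_sum, Cardinal.mk_fin, Cardinal.lift_natCast, Cardinal.lift_id] at h1
  have h2 : d + Fintype.card v = b + 1 := by exact_mod_cast h1
  omega

/-- Elements of a field with a transcendence basis which is algebraic over the base. -/
theorem alg_of_basis (E : IntermediateField k K) {d : ℕ} {y : Fin d → E}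
    (hy : IsTranscendenceBasis k y) (hyB : ∀ i, IsAlgebraic B (y i : K)) :
    ∀ x ∈ E, IsAlgebraic B x := by
  intro x hx
  obtain ⟨A, hA⟩ : ∃ A : IntermediateField B K, A = algebraicClosure B K := ⟨_, rfl⟩
  have hAalg : ∀ z : K, z ∈ A ↔ IsAlgebraic B z := fun z => by
    rw [hA, mem_algebraicClosure_iff]
  have hAB : Algebra.IsAlgebraic B A := by
    refine ⟨fun z => ?_⟩
    exact (isAlgebraic_algebraMap_iff (R := B) (algebraMap A K).injective).1 ((hAalg _).1 z.2)
  have h1 : Algebra.adjoin k (Set.range y) ≤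
      ((A.restrictScalars k).comap E.val).toSubalgebra := by
    rw [Algebra.adjoin_le_iff]
    rintro _ ⟨i, rfl⟩
    exact (hAalg _).2 (hyB i)
  let g : Algebra.adjoin k (Set.range y) →+* A :=
    { toFun := fun e => ⟨((e : E) : K), h1 e.2⟩
      map_one' := rfl
      map_mul' := fun _ _ => rfl
      map_zero' := rfl
      map_add' := fun _ _ => rfl }
  have hginj : Function.Injective g := by
    intro a b hab
    have h2 : ((g a : A) : K) = g b := congrArg Subtype.val hab
    exact Subtype.ext (Subtype.ext h2)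
  obtain ⟨p, hp0, hp⟩ := hy.isAlgebraic.isAlgebraic (⟨x, hx⟩ : E)
  have h2 : IsAlgebraic A x := by
    refine ⟨p.map g, (Polynomial.map_ne_zero_iff hginj).2 hp0, ?_⟩
    rw [Polynomial.aeval_def, Polynomial.eval₂_map]
    have h3 := congrArg (algebraMap E K) hp
    rw [Polynomial.aeval_def, Polynomial.hom_eval₂, map_zero] at h3
    exact h3
  exact h2.restrictScalars B

/-- **Lemma.** The subfields of the function field which are of general type are in the base. -/
theorem sub_base (hess : Algebra.EssFiniteType k K) [Algebra.IsAlgebraic B Λ]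
    [Algebra.IsAlgebraic K F] [hFF : IsFF Λ F] (hU : Uniq Λ F) {b d : ℕ}
    (hB : Algebra.trdeg k B = b) (hK : Algebra.trdeg k K = (b + 1 : ℕ))
    (E : IntermediateField k K) (hessE : Algebra.EssFiniteType k E)
    (hE : Algebra.trdeg k E = d) (hkod : KodTr k E d d) :
    ∀ x ∈ E, IsAlgebraic B x := by
  classical
  obtain ⟨N, hN, ω, hω, D, hD0, hDi⟩ := hkod
  -- the coordinates
  obtain ⟨y, hy⟩ := Pool.Agent.W636.PG.exists_basis k E d hE
  obtain ⟨EE, hEE⟩ := Pool.Agent.W636.PG.exists_duals k E d y hy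
  have hyK : AlgebraicIndependent k (fun i => (y i : K)) :=
    hy.1.map' (f := E.val) Subtype.val_injective
  by_cases hyB : ∀ i, IsAlgebraic B (y i : K)
  · exact alg_of_basis E hy hyB
  push Not at hyB
  obtain ⟨i0, hi0⟩ := hyB
  obtain ⟨r, rfl⟩ : ∃ r, d = r + 1 := by
    rcases d with _ | r
    · exact i0.elim0
    · exact ⟨r, rfl⟩
  obtain ⟨c, z, hcd, hbas⟩ := exists_mixed hB hK hyK hi0
  -- the ratios
  have hval : ∀ l, ω l D = (Matrix.of fun i j => D i (y j)).det ^ N * ω l EE := fun l =>
    Pool.Agent.W636.PG.form_eq k E (r + 1) N y hy EE hEE (ω l) (hω l).1 D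
  have hdet0 : (Matrix.of fun i j => D i (y j)).det ^ N ≠ 0 := by
    intro h0
    apply hD0 0
    rw [hval, h0, zero_mul]
  have ha0 : ∀ l, ω l EE ≠ 0 := by
    intro l h0
    apply hD0 l
    rw [hval, h0, mul_zero]
  have hrat : ∀ l : Fin (r + 1), ω l.succ D / ω 0 D = ω l.succ EE / ω 0 EE := by
    intro l
    rw [hval, hval, mul_div_mul_left _ _ hdet0]
  have hrb : IsTranscendenceBasis k (fun l : Fin (r + 1) => ω l.succ D / ω 0 D) := by
    refine hDi.isTranscendenceBasis_of_lift_trdeg_le_of_finite ?_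
    rw [hE]
    simp
  -- the forms are regular
  have hgood : ∀ l (w : Place k K), IsDivisorial w (c + (r + 1)) →
      YGood (r + 1) N w (fun i => (y i : K)) ((ω l EE : E) : K) := by
    intro l w hw
    refine Pool.Agent.W619.Y.pYLOC k K E (r + 1) (c + (r + 1)) N hE (by rw [hK, hcd])
      (fun y hy => fin_adj hessE y hy) (ω l) (hω l).1 (fun v hv D' hD' => ?_) y EE hy hEE w hw
    rcases (hω l).2.1 v hv (fun h => h) D' hD' with h | ⟨s, hs, hs0, hle⟩
    · exact Or.inl h
    · right
      simpa using hle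
  -- the ground field
  obtain ⟨k', hk'⟩ : ∃ k' : IntermediateField k B, k' = IntermediateField.adjoin k (Set.range z) :=
    ⟨_, rfl⟩
  have hzk : ∀ i, z i ∈ k' := fun i => by
    rw [hk']
    exact IntermediateField.subset_adjoin _ _ ⟨i, rfl⟩
  obtain ⟨zk, hzk'⟩ : ∃ zk : Fin c → k', ∀ i, (zk i : B) = z i := ⟨fun i => ⟨z i, hzk i⟩, fun _ => rfl⟩
  have hzi : AlgebraicIndependent k zk := by
    have h1 : AlgebraicIndependent k (algebraMap B K ∘ z) :=
      hbas.1.comp Sum.inr Sum.inr_injective
    have h2 : AlgebraicIndependent k z :=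
      AlgebraicIndependent.of_comp (IsScalarTower.toAlgHom k B K) h1
    refine AlgebraicIndependent.of_comp k'.val ?_
    have h3 : (k'.val ∘ zk) = z := funext hzk'
    rw [h3]
    exact h2
  have hgen : IntermediateField.adjoin k (Set.range zk) = ⊤ := by
    apply IntermediateField.map_injective k'.val
    rw [IntermediateField.adjoin_map, ← AlgHom.fieldRange_eq_map, IntermediateField.fieldRange_val,
      ← Set.range_comp]
    have h3 : (k'.val ∘ zk) = z := funext hzk'
    rw [h3]
    exact hk'.symm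
  have halg : Algebra.IsAlgebraic (Algebra.adjoin k (Set.range zk)) k' := by
    rw [← IntermediateField.isAlgebraic_adjoin_iff_top, hgen]
    exact ⟨fun x => isAlgebraic_algebraMap (⟨x, trivial⟩ : (⊤ : IntermediateField k k'))⟩
  have hzb : IsTranscendenceBasis k zk := hzi.isTranscendenceBasis_iff_isAlgebraic.2 halg
  have htk' : Algebra.trdeg k k' = c := by
    have h1 := hzb.lift_cardinalMk_eq_trdeg
    simpa using h1.symm
  -- the towers
  have hess' : Algebra.EssFiniteType k' K := Algebra.EssFiniteType.of_comp k k' K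
  have htK : Algebra.trdeg k' K = (r + 1 : ℕ) :=
    Pool.Agent.Y174.trdeg_LK (k := k) (L := k') (K := K) htk' (by rw [hK, hcd])
  have htB : Algebra.trdeg k' B = (r : ℕ) := by
    refine Pool.Agent.Y174.trdeg_LK (k := k) (L := k') (K := B) htk' ?_
    rw [hB]
    congr 1
    omega
  obtain ⟨tB, htBb⟩ := Pool.Agent.W636.PG.exists_basis k' B r htB
  have hxi : IsTranscendenceBasis B (fun _ : Fin (0 + 1) => (y i0 : K)) := by
    have h1 : AlgebraicIndependent B (fun _ : Fin (0 + 1) => (y i0 : K)) := by
      have : Unique (Fin (0 + 1)) := inferInstanceAs (Unique (Fin 1))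
      rw [algebraicIndependent_unique_type_iff]
      exact hi0
    have hBK : Algebra.trdeg B K = (1 : ℕ) := Pool.Agent.Y174.trdeg_LK (r := 1) hB hK
    refine h1.isTranscendenceBasis_of_lift_trdeg_le_of_finite ?_
    rw [hBK]
    simp
  have hyk' : IsTranscendenceBasis k' (fun i => (y i : K)) := by
    have h1 : Algebra.IsAlgebraic (Algebra.adjoin k' (Set.range fun i => (y i : K))) K := by
      have h2 := hbas.isAlgebraic
      have h3 : Algebra.adjoin k (Set.range (Sum.elim (fun i => (y i : K)) (algebraMap B K ∘ z))) ≤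
          (Algebra.adjoin k' (Set.range fun i => (y i : K))).restrictScalars k := by
        rw [Algebra.adjoin_le_iff]
        rintro _ ⟨i, rfl⟩
        rcases i with i | i
        · exact Algebra.subset_adjoin ⟨i, rfl⟩
        · have h4 : algebraMap B K (z i) = algebraMap k' K (zk i) := by
            change _ = algebraMap B K (zk i : B)
            rw [hzk']
          change algebraMap B K (z i) ∈ (Algebra.adjoin k' (Set.range fun i => (y i : K)))
          rw [h4]
          exact Subalgebra.algebraMap_mem _ _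
      refine ⟨fun x => ?_⟩
      obtain ⟨p, hp0, hp⟩ := h2.isAlgebraic x
      let g : Algebra.adjoin k (Set.range (Sum.elim (fun i => (y i : K)) (algebraMap B K ∘ z))) →+*
          Algebra.adjoin k' (Set.range fun i => (y i : K)) :=
        { toFun := fun e => ⟨(e : K), h3 e.2⟩
          map_one' := rfl
          map_mul' := fun _ _ => rfl
          map_zero' := rfl
          map_add' := fun _ _ => rfl }
      have hg : Function.Injective g := by
        intro a b hab
        have h5 : ((g a : Algebra.adjoin k' (Set.range fun i => (y i : K))) : K) = g b :=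
          congrArg Subtype.val hab
        exact Subtype.ext h5
      refine ⟨p.map g, (Polynomial.map_ne_zero_iff hg).2 hp0, ?_⟩
      rw [Polynomial.aeval_def, Polynomial.eval₂_map]
      exact hp
    refine Algebra.IsAlgebraic.isTranscendenceBasis_of_lift_le_trdeg_of_finite k' _ ?_
    rw [htK]
    simp
  refine alg_of_basis E hrb fun l => ?_
  rw [hrat l]
  have h1 := ratio_alg (k := k) (k' := k') (B := B) (K := K) (Λ := Λ) (F := F) hess' hU hzi htBb
    hxi hyk' htK (a1 := ((ω l.succ EE : E) : K)) (a2 := ((ω 0 EE : E) : K))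
    (fun h => ha0 _ (Subtype.ext h)) (fun h => ha0 _ (Subtype.ext h)) (hgood _) (hgood _)
  have h2 : ((ω l.succ EE / ω 0 EE : E) : K) = ((ω l.succ EE : E) : K) / ((ω 0 EE : E) : K) := by
    push_cast
    rfl
  rw [h2]
  exact h1

end

end Pool.Agent.K4H62.IT
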