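import Pool.Agent.K4H25.PC.Sys

/-!
Systems of functions which separate points: one more coordinate, of degree one.
-/

set_option autoImplicit false
set_option linter.unusedSectionVars false
set_option linter.overlappingInstances false

open Module

namespace Pool.Agent.K4H62.IT

open Pool.Agent.K4H25.PC

/-- **One more coordinate.** -/
theorem sepSys_snoc {F ι : Type} [Field F] [Algebra ℂ F] {N q : ℕ} {β : Fin N → Fin q}
    {M : Fin q → ℕ} {x : Fin N → F} {G : ι → F} (hG : SepSys β M x G) (u : F) :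
    SepSys (Fin.snoc (α := fun _ => Fin (q + 1)) (fun j => (β j).castSucc) (Fin.last q))
      (Fin.snoc (α := fun _ => ℕ) M 1) (Fin.snoc (α := fun _ => F) x u)
      (fun a : ι × Fin 2 => G a.1 * u ^ (a.2 : ℕ)) := by
  classical
  intro Ω κ _ _ S c φ hφ hrel s0 hs0 l hl hM
  have hrel0 : ∀ a, ∑ s ∈ S, c s * φ s (G a) = 0 := by
    intro a
    have h1 := hrel (a, 0)
    simpa using h1
  have hrel1 : ∀ a, ∑ s ∈ S, c s * (φ s (G a) * φ s u) = 0 := by
    intro a
    have h1 := hrel (a, 1)
    simpa using h1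
  have hbl : ∀ j : Fin N, (Fin.snoc (α := fun _ => Fin (q + 1)) (fun j => (β j).castSucc)
      (Fin.last q) : Fin (N + 1) → Fin (q + 1)) j.castSucc = (β j).castSucc := fun j => by
    rw [Fin.snoc_castSucc]
  have hbr : (Fin.snoc (α := fun _ => Fin (q + 1)) (fun j => (β j).castSucc)
      (Fin.last q) : Fin (N + 1) → Fin (q + 1)) (Fin.last N) = Fin.last q := by
    rw [Fin.snoc_last]
  -- the general step
  have hstep : ∀ (S' : Finset κ) (c' : κ → Ω), S' ⊆ S → s0 ∈ S' →
      (∀ a, ∑ s ∈ S', c' s * φ s (G a) = 0) →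
      (∀ s : {s // s ∈ S.erase s0}, (s : κ) ∈ S' → l s ≠ Fin.last N) → c' s0 = 0 := by
    intro S' c' hS' hs0' hr' hlast
    have hsub : ∀ s : {s // s ∈ S'.erase s0}, (s : κ) ∈ S.erase s0 := fun s =>
      Finset.mem_erase.2 ⟨Finset.ne_of_mem_erase s.2, hS' (Finset.mem_of_mem_erase s.2)⟩
    have hne : ∀ s : {s // s ∈ S'.erase s0}, ∃ j : Fin N, l ⟨s, hsub s⟩ = j.castSucc := by
      intro s
      have h1 := hlast ⟨s, hsub s⟩ (Finset.mem_of_mem_erase s.2)
      exact ⟨(l ⟨s, hsub s⟩).castPred h1, (Fin.castSucc_castPred _ _).symm⟩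
    choose l' hl' using hne
    refine hG Ω κ S' c' φ hφ hr' s0 hs0' l' (fun s => ?_) fun b => ?_
    · have h1 := hl ⟨s, hsub s⟩
      rw [hl', Fin.snoc_castSucc] at h1
      exact h1
    · have h1 := hM b.castSucc
      rw [Fin.snoc_castSucc] at h1
      refine le_trans ?_ h1
      refine Finset.card_le_card_of_injOn (fun s => ⟨s, hsub s⟩) (fun s hs => ?_) ?_
      · rw [Finset.coe_filter, Set.mem_setOf_eq] at hs
        rw [Finset.coe_filter, Set.mem_setOf_eq]
        refine ⟨Finset.mem_univ _, ?_⟩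
        rw [hl', hbl, hs.2]
      · intro s _ s' _ h
        have h2 := congrArg (fun z : {s // s ∈ S.erase s0} => (z : κ)) h
        exact Subtype.ext h2
  by_cases hex : ∃ s1 : {s // s ∈ S.erase s0}, l s1 = Fin.last N
  · obtain ⟨s1, hs1⟩ := hex
    have huniq : ∀ s : {s // s ∈ S.erase s0}, l s = Fin.last N → s = s1 := by
      intro s hs
      by_contra hne
      have h1 := hM (Fin.last q)
      rw [Fin.snoc_last] at h1
      have h2 : ({s, s1} : Finset {s // s ∈ S.erase s0}) ⊆ Finset.univ.filter fun s =>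
          (Fin.snoc (α := fun _ => Fin (q + 1)) (fun j => (β j).castSucc)
            (Fin.last q) : Fin (N + 1) → Fin (q + 1)) (l s) = Fin.last q := by
        intro z hz
        rw [Finset.mem_insert, Finset.mem_singleton] at hz
        refine Finset.mem_filter.2 ⟨Finset.mem_univ _, ?_⟩
        rcases hz with rfl | rfl
        · rw [hs, hbr]
        · rw [hs1, hbr]
      have h3 := Finset.card_le_card h2
      rw [Finset.card_pair hne] at h3
      omega
    have hs10 : (s1 : κ) ≠ s0 := Finset.ne_of_mem_erase s1.2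
    have hs1S : (s1 : κ) ∈ S := Finset.mem_of_mem_erase s1.2
    have h1 := hstep (S.erase s1) (fun s => c s * (φ s u - φ s1 u)) (Finset.erase_subset _ _)
      (Finset.mem_erase.2 ⟨hs10.symm, hs0⟩) (fun a => by
        have h2 : ∑ s ∈ S, c s * (φ s u - φ s1 u) * φ s (G a) = 0 := by
          have h3 : ∑ s ∈ S, c s * (φ s u - φ s1 u) * φ s (G a) =
              ∑ s ∈ S, c s * (φ s (G a) * φ s u) - φ s1 u * ∑ s ∈ S, c s * φ s (G a) := by
            rw [Finset.mul_sum, ← Finset.sum_sub_distrib]
            refine Finset.sum_congr rfl fun s _ => ?_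
            ring
          rw [h3, hrel0, hrel1, mul_zero, sub_zero]
        rw [← Finset.add_sum_erase S _ hs1S, sub_self, mul_zero, zero_mul, zero_add] at h2
        exact h2) (fun s hs hs' => by
        have h2 := huniq s hs'
        rw [h2] at hs
        exact Finset.notMem_erase _ _ hs)
    have h2 := hl s1
    rw [hs1, Fin.snoc_last] at h2
    exact (mul_eq_zero.1 h1).resolve_right (sub_ne_zero.2 h2.symm)
  · push Not at hex
    exact hstep S c (Finset.Subset.refl _) hs0 hrel0 fun s _ => hex s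

end Pool.Agent.K4H62.IT
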